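import Pool.Agent.H256R2.SC.Defs
import Pool.Agent.H256R2.SC.Basic

set_option autoImplicit false

/-! # The covering sieve with densities depending on the colour (project QG, helper378)

`Fin n` indexes the sieving primes, `κ` the shifts (colours) to be killed, `g i k` is the density of
the event that the prime `i` kills the shift `k`.  Everything not depending on `g` or on the profile
(`Col`, `fib`, `er`, `ins`, `free`, `supp`, `avoid`, `qq`, `SS`, `ind`, `Lv`, `Asum`, `al`, `nu1`) is
that of `Pool.Agent.H256R2.SC`. -/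

namespace Pool.Agent.H378R2.QG

open Finset
open Pool.Agent.H256R2.SC (Col fib er ins free supp avoid qq SS ind Lv Asum al)

variable {n : ℕ} {κ : Type} [Fintype κ] [DecidableEq κ]

/-- model probability of a colour -/
noncomputable def wt (g : κ → ℝ) (c : Option κ) : ℝ :=
  match c with
  | none => 1 - ∑ k, g k
  | some k => g k

/-- `1` at `none`, `g k` at the colours -/
noncomputable def nug (g : κ → ℝ) (c : Option κ) : ℝ :=
  match c with
  | none => 1
  | some k => g k

/-- local basis functions: `1` and `1[c = k] - g k` -/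
noncomputable def psi1 (g : κ → ℝ) (a c : Option κ) : ℝ :=
  match a with
  | none => 1
  | some k => (if c = some k then 1 else 0) - g k

/-- expectation in the independent model -/
noncomputable def EE (g : Fin n → κ → ℝ) (F : Col n κ → ℝ) : ℝ :=
  ∑ x : Col n κ, (∏ i, wt (g i) (x i)) * F x

/-- basis functions -/
noncomputable def psi (g : Fin n → κ → ℝ) (D x : Col n κ) : ℝ := ∏ i, psi1 (g i) (D i) (x i)

/-- linear combinations of the basis functions -/
noncomputable def VV (g : Fin n → κ → ℝ) (y : Col n κ → ℝ) (x : Col n κ) : ℝ := ∑ D, y D * psi g D x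

/-- product of the densities over the support of `D` -/
noncomputable def nu (g : Fin n → κ → ℝ) (D : Col n κ) : ℝ := ∏ i, nug (g i) (D i)

/-- coherent coefficients, one profile for each colour -/
noncomputable def yy (h : κ → Finset (Fin n) → ℝ) (D : Col n κ) : ℝ := ∏ k, al (h k) (fib D k)

/-- truncated coherent coefficients -/
noncomputable def yT (p : Fin n → ℝ) (h : κ → Finset (Fin n) → ℝ) (Q : ℝ) (D : Col n κ) : ℝ :=
  if qq p D ≤ Q then yy h D else 0

/-- total mass -/
noncomputable def Zs (g : Fin n → κ → ℝ) (h : κ → Finset (Fin n) → ℝ) : ℝ :=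
  ∑ D : Col n κ, (yy h D) ^ 2 * nu g D

/-- reduced coefficients on the event that the colour `k` does not occur -/
noncomputable def red (g : Fin n → κ → ℝ) (y : Col n κ → ℝ) (k : κ) (D' : Col n κ) : ℝ :=
  ∑ D with er k D = D', y D * ∏ i ∈ fib D k, (-(g i k))

/-- local weights for the moment bound -/
noncomputable def bet (g : κ → ℝ) (t : ℝ) (k₀ : κ) (c : Option κ) : ℝ :=
  match c with
  | none => 1 + 3 * t * g k₀
  | some l => if l = k₀ then (1 + 3 * t) * g l else g l

/-- hypotheses on the profile `h` of one colour with densities `g i ≥ 0` -/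
structure Hyp (p g : Fin n → ℝ) (h : Finset (Fin n) → ℝ) (z K : ℝ) : Prop where
  p1 : ∀ i, 1 < p i
  g0 : ∀ i, 0 ≤ g i
  z1 : 1 < z
  K0 : 0 ≤ K
  h0 : ∀ s, 0 ≤ h s
  h1 : ∀ s, h s ≤ 1
  anti : ∀ s t, s.Nonempty → s ⊆ t → h t ≤ h s
  supp : ∀ s, h s ≠ 0 → ∏ i ∈ s, p i ≤ z
  sum1 : ∑ s : Finset (Fin n) with s.Nonempty, h s * ∏ i ∈ s, g i = 1
  cost : ∑ s : Finset (Fin n) with s.Nonempty,
    (h s) ^ 2 * (∏ i ∈ s, g i) * Real.log (∏ i ∈ s, p i) ≤ K


/-- the primes in `(y₁, z]` -/
noncomputable def PZ (y₁ z : ℝ) : Finset ℕ :=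
  (Finset.Icc 1 ⌊z⌋₊).filter (fun p => p.Prime ∧ y₁ < (p : ℝ))

/-- the sum of `χ(p)/p` over the primes in `(y₁, w]` -/
noncomputable def Tc (χ : ℕ → ℝ) (y₁ w : ℝ) : ℝ := ∑ p ∈ PZ y₁ w, χ p / p

/-- the bound for the small primes with the class `1` -/
noncomputable def w0 (y : ℝ) : ℝ :=
  Real.exp (Real.log y * Real.log (Real.log (Real.log y)) / (10 * Real.log (Real.log y)))

/-- the classes of `n`: `1` for the primes up to `w0 y`, `0` for the others -/
noncomputable def cl (y : ℝ) (p : ℕ) : ℕ := if (p : ℝ) ≤ w0 y then 1 else 0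

end Pool.Agent.H378R2.QG
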