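import Pool.Agent.H704R2.QG.QN
import Pool.Agent.H769R2.QG.QM

set_option autoImplicit false

/-! # `T_lower` from QN (helper704) and the block sieve QM (helper769) -/

namespace Pool.Agent.H378R2.QG

open Pool.Agent.Helper919 (XX)

/-- lower bounds for the partial sums: all `D`, and all but few `D` -/
theorem T_lower : ∃ C : ℝ, 0 ≤ C ∧ ∃ L₀ : ℝ, ∀ L : ℝ, L₀ ≤ L → ∃ E : Finset ℤ,
    (E.card : ℝ) ≤ L ^ (7 / 10 : ℝ) ∧
    ∀ D : ℤ, ¬ IsSquare D → |(D : ℝ)| ≤ L ^ (11 / 10 : ℝ) →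
      (∀ w, L ^ 2 ≤ w → w ≤ Real.exp L → -(C + Real.log L / 20) ≤ Tc (fun p => XX D p) (L ^ 2) w) ∧
      (D ∉ E → ∀ w, L ^ 2 ≤ w → w ≤ Real.exp L → -C ≤ Tc (fun p => XX D p) (L ^ 2) w) :=
  T_lower_of (fun H U V h1 h2 h3 δ h4 h5 S h6 => block_sieve H U V h1 h2 h3 δ h4 h5 S h6)

end Pool.Agent.H378R2.QG
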