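import Pool.Agent.H378R2.QG.V1
import Pool.Agent.H378R2.QG.TL
import Pool.Agent.H769R2.QG.QJ
import Pool.Agent.H769R2.QG.QS
import Pool.Agent.H944R2.QG.QL
import Pool.Agent.H300R2.EC.Defs
import Pool.Agent.H256R2.SC.V2

set_option autoImplicit false
set_option linter.unusedSectionVars false

/-! # The covering theorem for squares (project QG, helper378) -/

namespace Pool.Agent.H378R2.QG

open Finset Filter
open Pool.Agent.H256R2.SC (Col supp qq emb emb_mem emb_surj mem_supp prod_nu1 nu1 Asum ev_facts scales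
  qn qn_squarefree qn_primeFactors qn_cast)
open Pool.Agent.Helper919 (XX XX_apply XX_abs_le)

open scoped Classical

/-- enumeration of `Asum` with general densities -/
theorem Asum_enum (PP : Finset ℕ) (w : ℕ → ℝ) (x : ℝ) :
    Asum (fun i => ((emb PP i : ℕ) : ℝ)) (fun i => w (emb PP i)) x =
      ∑ s ∈ (PP.powerset.filter (fun s : Finset ℕ => s.Nonempty ∧ ∏ p ∈ s, (p : ℝ) ≤ x)),
        ∏ p ∈ s, w p := by
  unfold Asum
  refine Finset.sum_bij' (fun s _ => s.map (emb PP))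
    (fun t _ => univ.filter (fun i => emb PP i ∈ t)) ?_ ?_ ?_ ?_ ?_
  · intro s hs
    rw [Finset.mem_filter] at hs ⊢
    refine ⟨Finset.mem_powerset.mpr ?_, hs.2.1.map, ?_⟩
    · intro p hp
      obtain ⟨i, _, rfl⟩ := Finset.mem_map.mp hp
      exact emb_mem PP i
    · rw [Finset.prod_map]
      exact hs.2.2
  · intro t ht
    rw [Finset.mem_filter, Finset.mem_powerset] at ht
    have hmap : (univ.filter (fun i => emb PP i ∈ t)).map (emb PP) = t := by
      ext p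
      rw [Finset.mem_map]
      constructor
      · rintro ⟨i, hi, rfl⟩
        exact (Finset.mem_filter.mp hi).2
      · intro hp
        obtain ⟨i, rfl⟩ := emb_surj PP (ht.1 hp)
        exact ⟨i, Finset.mem_filter.mpr ⟨Finset.mem_univ _, hp⟩, rfl⟩
    rw [Finset.mem_filter]
    refine ⟨Finset.mem_univ _, ?_, ?_⟩
    · have := ht.2.1
      rw [← hmap] at this
      exact Finset.map_nonempty.mp this
    · have := ht.2.2
      rw [← hmap, Finset.prod_map] at this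
      exact this
  · intro s _
    ext i
    rw [Finset.mem_filter, Finset.mem_map' (emb PP)]
    simp
  · intro t ht
    rw [Finset.mem_filter, Finset.mem_powerset] at ht
    ext p
    rw [Finset.mem_map]
    constructor
    · rintro ⟨i, hi, rfl⟩
      exact (Finset.mem_filter.mp hi).2
    · intro hp
      obtain ⟨i, rfl⟩ := emb_surj PP (ht.1 hp)
      exact ⟨i, Finset.mem_filter.mpr ⟨Finset.mem_univ _, hp⟩, rfl⟩
  · intro s _
    rw [Finset.prod_map]

theorem ev_more (c₃ : ℝ) (hc : 0 < c₃) : ∃ L₀ : ℝ, ∀ L : ℝ, L₀ ≤ L →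
    2 ≤ c₃ * Real.exp (-(Real.log L / 20)) * ((L / (2000 * Real.log L)) / (2 * Real.log L)) ∧
    2 * (L ^ (7 / 10 : ℝ) * (16 * Real.log L * Real.exp (Real.log L / 20) / c₃)) ≤ L / 400 ∧
    2 * L ^ (11 / 10 : ℝ) < L ^ 2 := by
  have h1 := (isLittleO_pow_exp_pos_mul_atTop (k := 2) (b := (1 / 10 : ℝ)) (by norm_num)).def
    (show (0:ℝ) < c₃ / 12800 by positivity)
  have h1' := (isLittleO_pow_exp_pos_mul_atTop (k := 1) (b := (1 / 10 : ℝ)) (by norm_num)).def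
    (show (0:ℝ) < c₃ / 12800 by positivity)
  have key : ∀ᶠ l : ℝ in atTop, l ^ 2 ≤ c₃ / 12800 * Real.exp (1 / 10 * l) ∧
      l ≤ c₃ / 12800 * Real.exp (1 / 10 * l) ∧ 2 ≤ l := by
    filter_upwards [h1, h1', eventually_ge_atTop (2:ℝ)] with l h2 h3 h4
    rw [Real.norm_eq_abs, Real.norm_eq_abs, abs_of_nonneg (Real.exp_pos _).le] at h2 h3
    rw [abs_of_nonneg (by positivity)] at h2 h3
    rw [pow_one] at h3
    exact ⟨h2, h3, h4⟩
  obtain ⟨L₀, hL₀⟩ := Filter.eventually_atTop.mp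
    ((Real.tendsto_log_atTop.eventually key).and (eventually_ge_atTop (1:ℝ)))
  refine ⟨L₀, fun L hL => ?_⟩
  obtain ⟨⟨e1, e2, e3⟩, e4⟩ := hL₀ L hL
  set l := Real.log L with hl
  have hL0 : 0 < L := by linarith
  have hLe : L = Real.exp l := (Real.exp_log hL0).symm
  have hl0 : 0 < l := by linarith
  have hr : ∀ s : ℝ, L ^ s = Real.exp (s * l) := fun s => by
    rw [Real.rpow_def_of_pos hL0, ← hl, mul_comm]
  refine ⟨?_, ?_, ?_⟩
  · have e5 : c₃ * Real.exp (-(l / 20)) * ((L / (2000 * l)) / (2 * l)) =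
        c₃ * (Real.exp (-(l / 20)) * Real.exp l) / (4000 * l ^ 2) := by
      rw [← hLe]
      field_simp
      norm_num
    rw [e5, le_div_iff₀ (by positivity), ← Real.exp_add]
    have e6 : Real.exp (1 / 10 * l) ≤ Real.exp (-(l / 20) + l) := Real.exp_le_exp.mpr (by linarith)
    have e7 : c₃ / 12800 * Real.exp (1 / 10 * l) ≤ c₃ / 12800 * Real.exp (-(l / 20) + l) :=
      mul_le_mul_of_nonneg_left e6 (by positivity)
    have e8 : 0 < c₃ * Real.exp (-(l / 20) + l) := by positivity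
    linarith
  · rw [hr]
    have e5 : 2 * (Real.exp (7 / 10 * l) * (16 * l * Real.exp (l / 20) / c₃)) =
        32 / c₃ * l * (Real.exp (7 / 10 * l) * Real.exp (l / 20)) := by ring
    rw [e5, ← Real.exp_add]
    have e6 : 32 / c₃ * l ≤ 1 / 400 * Real.exp (1 / 10 * l) := by
      rw [div_mul_eq_mul_div, div_le_iff₀ hc]
      linarith
    calc 32 / c₃ * l * Real.exp (7 / 10 * l + l / 20)
        ≤ 1 / 400 * Real.exp (1 / 10 * l) * Real.exp (7 / 10 * l + l / 20) :=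
          mul_le_mul_of_nonneg_right e6 (Real.exp_pos _).le
      _ = 1 / 400 * Real.exp (1 / 10 * l + (7 / 10 * l + l / 20)) := by
          rw [mul_assoc, ← Real.exp_add]
      _ ≤ 1 / 400 * Real.exp l := by
          apply mul_le_mul_of_nonneg_left _ (by norm_num)
          apply Real.exp_le_exp.mpr
          linarith
      _ = L / 400 := by rw [← hLe]; ring
  · have e5 : L ^ 2 = Real.exp (2 * l) := by
      conv_lhs => rw [hLe]
      rw [← Real.exp_nat_mul]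
      norm_num
    rw [hr, e5]
    have e6 : Real.exp (2 * l) = Real.exp (9 / 10 * l) * Real.exp (11 / 10 * l) := by
      rw [← Real.exp_add]; congr 1; ring
    rw [e6]
    apply mul_lt_mul_of_pos_right _ (Real.exp_pos _)
    have := Real.add_one_le_exp (9 / 10 * l)
    linarith

private lemma vaux1 (L : ℝ) (hL : 0 < L) : (2 / L) ^ 2 = 4 / L ^ 2 := by field_simp; norm_num
private lemma vaux2 (L : ℝ) (hL : 0 < L) : L * (5 / L ^ 2) = 5 / L := by field_simp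
private lemma vaux3 (L : ℝ) (hL : 0 < L) : (L / 8) * (1 / L) = 1 / 8 := by field_simp

theorem num_tail {L l u S z : ℝ} (hLexp : L = Real.exp l) (l10 : 10 ≤ l) (hL : 1000 ≤ L)
    (hu0 : 0 ≤ u) (huL : u ≤ L / 8) (hzpos : 0 < z) (hlzpos : 0 < Real.log z)
    (hlz1 : Real.log z ≤ L / (1000 * l)) (hlz2 : L / (2000 * l) ≤ Real.log z)
    (hS : S ≤ L / 400) :
    (u + 1) * ((2 / L) ^ 2 + Real.exp (2 * S / Real.log z -
      Real.log (Real.exp (L / 40) / z) / Real.log z)) ≤ 1 / 8 := by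
  have hLpos : 0 < L := by linarith
  have hl0 : 0 < l := by linarith
  have h1 : 2 * S / Real.log z ≤ 10 * l := by
    rw [div_le_iff₀ hlzpos]
    have e3 : L / 200 = 10 * l * (L / (2000 * l)) := by field_simp; norm_num
    have e4 : 10 * l * (L / (2000 * l)) ≤ 10 * l * Real.log z :=
      mul_le_mul_of_nonneg_left hlz2 (by positivity)
    linarith
  have h2 : 25 * l - 1 ≤ Real.log (Real.exp (L / 40) / z) / Real.log z := by
    rw [Real.log_div (by positivity) hzpos.ne', Real.log_exp, sub_div, div_self hlzpos.ne']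
    have : 25 * l ≤ L / 40 / Real.log z := by
      rw [le_div_iff₀ hlzpos]
      calc 25 * l * Real.log z ≤ 25 * l * (L / (1000 * l)) :=
            mul_le_mul_of_nonneg_left hlz1 (by positivity)
        _ = L / 40 := by field_simp; norm_num
    linarith
  have h3 : Real.exp (2 * S / Real.log z - Real.log (Real.exp (L / 40) / z) / Real.log z) ≤
      1 / L ^ 2 := by
    have e1 : (1:ℝ) / L ^ 2 = Real.exp (-(2 * l)) := by
      rw [Real.exp_neg, hLexp, ← Real.exp_nat_mul]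
      push_cast
      rw [one_div]
    rw [e1]
    apply Real.exp_le_exp.mpr
    linarith
  have h4 : (u + 1) * ((2 / L) ^ 2 + Real.exp (2 * S / Real.log z -
      Real.log (Real.exp (L / 40) / z) / Real.log z)) ≤ L * (5 / L ^ 2) := by
    apply mul_le_mul (by linarith) _ (by positivity) hLpos.le
    have : (2 / L) ^ 2 = 4 / L ^ 2 := vaux1 L hLpos
    rw [this]
    have e : (5:ℝ) / L ^ 2 = 4 / L ^ 2 + 1 / L ^ 2 := by ring
    rw [e]
    linarith
  have h5 : L * (5 / L ^ 2) = 5 / L := vaux2 L hLpos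
  have h6 : 5 / L ≤ 1 / 8 := by rw [div_le_div_iff₀ hLpos (by norm_num)]; linarith
  linarith

theorem num_mom {L l u G : ℝ} {J : ℕ} (hLexp : L = Real.exp l) (l10 : 10 ≤ l) (hL : 1000 ≤ L)
    (hu0 : 0 ≤ u) (huL : u ≤ L / 8) (hJ1 : 44 * l ≤ (J:ℝ)) (hG : 20 * G ≤ 42 * l) :
    u * (1 / (3:ℝ)) ^ J * Real.exp ((2 + 6 * 3) * G) ≤ 1 / 8 := by
  have hLpos : 0 < L := by linarith
  have hl0 : 0 < l := by linarith
  have h1 : (1 / (3:ℝ)) ^ J ≤ Real.exp (-(44 * l)) := by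
    have e1 : (1 / (3:ℝ)) = Real.exp (-(Real.log 3)) := by
      rw [Real.exp_neg, Real.exp_log (by norm_num)]; norm_num
    rw [e1, ← Real.exp_nat_mul]
    apply Real.exp_le_exp.mpr
    have e2 : (1:ℝ) ≤ Real.log 3 := by
      rw [Real.le_log_iff_exp_le (by norm_num)]
      have := Real.exp_one_lt_d9
      linarith
    have e3 : 44 * l ≤ J * Real.log 3 := by nlinarith
    linarith
  have h2 : Real.exp ((2 + 6 * 3) * G) ≤ Real.exp (42 * l) := by
    apply Real.exp_le_exp.mpr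
    linarith
  have h3 : (1 / (3:ℝ)) ^ J * Real.exp ((2 + 6 * 3) * G) ≤ 1 / L := by
    calc (1 / (3:ℝ)) ^ J * Real.exp ((2 + 6 * 3) * G)
        ≤ Real.exp (-(44 * l)) * Real.exp (42 * l) :=
          mul_le_mul h1 h2 (Real.exp_pos _).le (Real.exp_pos _).le
      _ = Real.exp (-(2 * l)) := by rw [← Real.exp_add]; congr 1; ring
      _ ≤ Real.exp (-l) := Real.exp_le_exp.mpr (by linarith)
      _ = 1 / L := by rw [Real.exp_neg, ← hLexp, one_div]
  calc u * (1 / (3:ℝ)) ^ J * Real.exp ((2 + 6 * 3) * G)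
      = u * ((1 / (3:ℝ)) ^ J * Real.exp ((2 + 6 * 3) * G)) := by ring
    _ ≤ (L / 8) * (1 / L) := mul_le_mul huL h3 (by positivity) (by positivity)
    _ = 1 / 8 := vaux3 L hLpos

theorem num_fin {L u z N : ℝ} {n J : ℕ} (hL : 1000 ≤ L) (hu0 : 0 ≤ u)
    (hu : u ≤ Real.exp (L / 100)) (hn1 : (n:ℝ) + 1 ≤ z) (hzJ : z ^ J ≤ Real.exp (45 * L / 1000))
    (hN : Real.exp (1 / 2 * L) ≤ N) :
    Real.exp (7 * L / 100) * (9 * (Real.exp (L / 40)) ^ 4 * (1 + u * ((n:ℝ) + 1) ^ J)) < N / 8 := by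
  have hLpos : 0 < L := by linarith
  have hn0 : (0:ℝ) ≤ (n:ℝ) + 1 := add_nonneg (Nat.cast_nonneg n) zero_le_one
  have hnJ0 : (0:ℝ) ≤ ((n:ℝ) + 1) ^ J := pow_nonneg hn0 J
  have h1 : ((n:ℝ) + 1) ^ J ≤ Real.exp (45 * L / 1000) :=
    (pow_le_pow_left₀ hn0 hn1 J).trans hzJ
  have h2 : u * ((n:ℝ) + 1) ^ J ≤ Real.exp (L / 100) * Real.exp (45 * L / 1000) :=
    mul_le_mul hu h1 hnJ0 (Real.exp_pos _).le
  have h3 : (1:ℝ) ≤ Real.exp (55 * L / 1000) := Real.one_le_exp (by positivity)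
  have h4 : 1 + u * ((n:ℝ) + 1) ^ J ≤ 2 * Real.exp (55 * L / 1000) := by
    have : Real.exp (L / 100) * Real.exp (45 * L / 1000) = Real.exp (55 * L / 1000) := by
      rw [← Real.exp_add]; congr 1; ring
    linarith
  have h5 : (Real.exp (L / 40)) ^ 4 = Real.exp (L / 10) := by
    rw [← Real.exp_nat_mul]; congr 1; push_cast; ring
  have h6 : Real.exp (7 * L / 100) * (9 * (Real.exp (L / 40)) ^ 4 * (1 + u * ((n:ℝ) + 1) ^ J)) ≤
      Real.exp (7 * L / 100) * (9 * Real.exp (L / 10) * (2 * Real.exp (55 * L / 1000))) := by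
    rw [h5]
    have h50 : (0:ℝ) ≤ 9 * Real.exp (L / 10) :=
      mul_nonneg (by norm_num) (Real.exp_pos _).le
    exact mul_le_mul_of_nonneg_left (mul_le_mul_of_nonneg_left h4 h50) (Real.exp_pos _).le
  have h7 : Real.exp (7 * L / 100) * (9 * Real.exp (L / 10) * (2 * Real.exp (55 * L / 1000))) =
      18 * Real.exp (225 * L / 1000) := by
    have : Real.exp (7 * L / 100) * Real.exp (L / 10) * Real.exp (55 * L / 1000) =
        Real.exp (225 * L / 1000) := by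
      rw [← Real.exp_add, ← Real.exp_add]; congr 1; ring
    calc _ = 18 * (Real.exp (7 * L / 100) * Real.exp (L / 10) * Real.exp (55 * L / 1000)) := by
          ring
      _ = _ := by rw [this]
  have h8 : 18 * Real.exp (225 * L / 1000) < Real.exp (1 / 2 * L) / 8 := by
    have e1 : Real.exp (1 / 2 * L) = Real.exp (225 * L / 1000) * Real.exp (275 * L / 1000) := by
      rw [← Real.exp_add]; congr 1; ring
    have e2 : (144:ℝ) < Real.exp (275 * L / 1000) := by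
      have := Real.add_one_le_exp (275 * L / 1000)
      linarith
    rw [e1]
    have := Real.exp_pos (225 * L / 1000)
    nlinarith
  have h9 : Real.exp (1 / 2 * L) / 8 ≤ N / 8 := by linarith
  linarith

theorem sum_inv_PZ {CM₀ L z y₁ : ℝ} (hM₀ : ∀ n : ℕ, 3 ≤ n →
      |∑ p ∈ (Finset.Icc 1 n).filter Nat.Prime, (1 : ℝ) / p - Real.log (Real.log n)| ≤ CM₀)
    (hz3 : 3 ≤ z) (hzL : Real.log z ≤ L) :
    ∑ p ∈ PZ y₁ z, 1 / (p:ℝ) ≤ Real.log L + max CM₀ 0 := by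
  have hz3' : 3 ≤ ⌊z⌋₊ := Nat.le_floor (by push_cast; linarith)
  have h2 := (abs_le.mp (hM₀ ⌊z⌋₊ hz3')).2
  have h3 : ∑ p ∈ PZ y₁ z, 1 / (p:ℝ) ≤ ∑ p ∈ (Finset.Icc 1 ⌊z⌋₊).filter Nat.Prime, (1 : ℝ) / p := by
    apply Finset.sum_le_sum_of_subset_of_nonneg
    · intro p hp
      unfold PZ at hp
      rw [Finset.mem_filter] at hp ⊢
      exact ⟨hp.1, hp.2.1⟩
    · intro p _ _
      positivity
  have h4 : Real.log (Real.log (⌊z⌋₊ : ℝ)) ≤ Real.log L := by
    have e1 : (3:ℝ) ≤ (⌊z⌋₊ : ℝ) := by exact_mod_cast hz3'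
    have e2 : Real.log (⌊z⌋₊ : ℝ) ≤ L := by
      have : Real.log (⌊z⌋₊ : ℝ) ≤ Real.log z :=
        Real.log_le_log (by linarith) (Nat.floor_le (by linarith))
      linarith
    exact Real.log_le_log (Real.log_pos (by linarith)) e2
  have := le_max_left CM₀ 0
  linarith

theorem prof_good {c₃ l z₀ z y₁ : ℝ} {m n : ℕ} (hc₃ : 0 < c₃) (hl0 : 0 < l)
    (hlogz0 : Real.log z₀ = 2 * (2 / c₃ + 1) * l) (hz01 : 1 < z₀) (hz : z = z₀ ^ (2 ^ m))
    (hy1 : 3 ≤ y₁) (hlogy : Real.log y₁ = 2 * l) (P g : Fin n → ℝ) (hP1 : ∀ i, 1 < P i)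
    (hg0 : ∀ i, 0 ≤ g i)
    (hA : ∀ x, y₁ ≤ x → x ≤ z → c₃ * (Real.log x / Real.log y₁) - 1 ≤ Asum P g x) :
    ∃ h, Hyp P g h z (4 / (c₃ / (4 * l) * ((m + 1 : ℕ) : ℝ))) := by
  set C₀ : ℝ := 2 / c₃ + 1 with hC₀
  have hC1 : 1 ≤ C₀ := by
    rw [hC₀]
    have : 0 < 2 / c₃ := by positivity
    linarith
  set lam : ℝ := c₃ / (4 * l) with hlam
  have hlam0 : 0 < lam := by positivity
  have hlogzj : ∀ j : ℕ, Real.log (z₀ ^ (2 ^ j)) = (2:ℝ) ^ j * (2 * C₀ * l) := by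
    intro j
    rw [Real.log_pow, hlogz0]
    push_cast
    ring
  have hA' : ∀ j < m + 1, 1 ≤ Asum P g (z₀ ^ (2 ^ j)) ∧
      lam * (2 ^ j * Real.log z₀) ≤ Asum P g (z₀ ^ (2 ^ j)) := by
    intro j hj
    have hxl := hlogzj j
    have h2j : (1:ℝ) ≤ 2 ^ j := one_le_pow₀ (by norm_num)
    have hyx : y₁ ≤ z₀ ^ (2 ^ j) := by
      rw [← Real.log_le_log_iff (by linarith) (by positivity), hxl, hlogy]
      have : 2 * l ≤ 1 * (2 * C₀ * l) := by nlinarith
      nlinarith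
    have hxz : z₀ ^ (2 ^ j) ≤ z := by
      rw [hz]
      exact pow_le_pow_right₀ hz01.le (Nat.pow_le_pow_right (by norm_num) (by omega))
    have h2 := hA (z₀ ^ (2 ^ j)) hyx hxz
    have h3 : c₃ * (Real.log (z₀ ^ (2 ^ j)) / Real.log y₁) = c₃ * (2 ^ j * C₀) := by
      rw [hxl, hlogy]
      field_simp
    rw [h3] at h2
    have h4 : c₃ * C₀ = 2 + c₃ := by
      rw [hC₀]
      field_simp
    have h6 : 2 ≤ c₃ * (2 ^ j * C₀) := by
      calc (2:ℝ) ≤ c₃ * C₀ := by linarith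
        _ = c₃ * (1 * C₀) := by ring
        _ ≤ c₃ * (2 ^ j * C₀) := by
          apply mul_le_mul_of_nonneg_left _ hc₃.le
          apply mul_le_mul_of_nonneg_right h2j (by linarith)
    refine ⟨by linarith, ?_⟩
    have h7 : lam * (2 ^ j * Real.log z₀) = c₃ * (2 ^ j * C₀) / 2 := by
      rw [hlam, hlogz0]
      field_simp
      ring
    rw [h7]
    linarith
  obtain ⟨h, H⟩ := exists_h P g hP1 hg0 (m + 1) (by omega) z₀ lam hz01 hlam0 hA'
  have hzz : z₀ ^ (2 ^ (m + 1 - 1)) = z := by rw [hz, Nat.add_sub_cancel]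
  rw [hzz] at H
  exact ⟨h, H⟩

theorem prof_bad {c₃ L l z : ℝ} {n : ℕ} (hc₃ : 0 < c₃) (hl0 : 0 < l) (hz1 : 1 < z)
    (hlz2 : L / (2000 * l) ≤ Real.log z) (P g : Fin n → ℝ) (hP1 : ∀ i, 1 < P i)
    (hg0 : ∀ i, 0 ≤ g i)
    (k1 : 2 ≤ c₃ * Real.exp (-(l / 20)) * ((L / (2000 * l)) / (2 * l)))
    (h1 : c₃ * Real.exp (-(l / 20)) * (Real.log z / (2 * l)) - 1 ≤ Asum P g z) :
    ∃ h, Hyp P g h z (16 * l * Real.exp (l / 20) / c₃) := by
  set lam₂ : ℝ := c₃ * Real.exp (-(l / 20)) / (4 * l) with hlam₂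
  have hlam₂0 : 0 < lam₂ := by positivity
  have h3 : 2 ≤ c₃ * Real.exp (-(l / 20)) * (Real.log z / (2 * l)) := by
    refine k1.trans ?_
    apply mul_le_mul_of_nonneg_left _ (by positivity)
    exact div_le_div_of_nonneg_right hlz2 (by positivity)
  have h4 : lam₂ * Real.log z = c₃ * Real.exp (-(l / 20)) * (Real.log z / (2 * l)) / 2 := by
    rw [hlam₂]
    field_simp
    ring
  obtain ⟨h, H⟩ := exists_h P g hP1 hg0 1 le_rfl z lam₂
    hz1 hlam₂0 (by
      intro j hj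
      have hj0 : j = 0 := by omega
      subst hj0
      simp only [pow_zero, pow_one, one_mul]
      constructor
      · linarith
      · rw [h4]
        linarith)
  simp only [Nat.sub_self, pow_zero, pow_one, Nat.cast_one, mul_one] at H
  have h5 : 4 / lam₂ = 16 * l * Real.exp (l / 20) / c₃ := by
    rw [hlam₂, Real.exp_neg]
    field_simp
    norm_num
  rw [h5] at H
  exact ⟨h, H⟩


theorem inj_of_small {L : ℝ} {sh₁ sh₂ : ℤ} {p : ℕ} (k3 : 2 * L ^ (11 / 10 : ℝ) < L ^ 2)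
    (h1 : |(sh₁ : ℝ)| ≤ L ^ (11 / 10 : ℝ)) (h2 : |(sh₂ : ℝ)| ≤ L ^ (11 / 10 : ℝ)) (hne : sh₁ ≠ sh₂)
    (hp : L ^ 2 < (p : ℝ)) : ¬ (p : ℤ) ∣ sh₁ - sh₂ := by
  intro hd
  have h3 : sh₁ - sh₂ ≠ 0 := sub_ne_zero.mpr hne
  have h4 := Int.le_of_dvd (abs_pos.mpr h3) ((dvd_abs _ _).mpr hd)
  have h5 : (p : ℝ) ≤ |(sh₁ : ℝ) - (sh₂ : ℝ)| := by exact_mod_cast h4
  have h6 : |(sh₁ : ℝ) - (sh₂ : ℝ)| ≤ |(sh₁ : ℝ)| + |(sh₂ : ℝ)| := abs_sub _ _
  linarith

theorem supp_card_le {L l : ℝ} {n : ℕ} {κ : Type} [Fintype κ] [DecidableEq κ] (P : Fin n → ℝ)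
    (hLexp : L = Real.exp l) (hL : 1 ≤ L) (hPy : ∀ i, L ^ 2 < P i) (D : Col n κ) (T : ℝ)
    (hD : qq P D ≤ Real.exp T) : ((supp D).card : ℝ) * l ≤ T := by
  have h1 : Real.exp (((supp D).card : ℝ) * l) ≤ qq P D := by
    unfold qq
    rw [prod_nu1]
    have : Real.exp (((supp D).card : ℝ) * l) = ∏ i ∈ supp D, Real.exp l := by
      rw [Finset.prod_const, ← Real.exp_nat_mul]
    rw [this]
    apply Finset.prod_le_prod
    · intro i _; exact (Real.exp_pos _).le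
    · intro i _
      rw [← hLexp]
      have := hPy i
      nlinarith
  exact Real.exp_le_exp.mp (h1.trans hD)

theorem Ksum_le {κ : Type} [Fintype κ] (E : Finset ℤ) (sh : κ → ℤ) (hsh : Function.Injective sh)
    {K₁ K₂ c c₃ L : ℝ} (hc₃ : 0 < c₃) (hL : 0 ≤ L) (hK₁0 : 0 ≤ K₁) (hK16 : K₁ ≤ 16 / c₃)
    (hK₂0 : 0 ≤ K₂) (hcc : c ≤ c₃ / 12800) (hc0 : 0 ≤ c)
    (huc : (Fintype.card κ : ℝ) ≤ c * L) (hE : (E.card : ℝ) ≤ L ^ (7 / 10 : ℝ))
    (k2 : 2 * (L ^ (7 / 10 : ℝ) * K₂) ≤ L / 400) :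
    ∑ k, (if -sh k ∈ E then K₂ else K₁) ≤ L / 400 := by
  have h1 : ∑ k : κ, (if -sh k ∈ E then K₂ else K₁) ≤
      ∑ k : κ, (K₁ + if -sh k ∈ E then K₂ else 0) := by
    apply Finset.sum_le_sum
    intro k _
    split_ifs
    · linarith
    · linarith
  have h2 : ∑ k : κ, (K₁ + if -sh k ∈ E then K₂ else 0) =
      (Fintype.card κ : ℝ) * K₁ + ((univ.filter (fun k : κ => -sh k ∈ E)).card : ℝ) * K₂ := by
    rw [Finset.sum_add_distrib, Finset.sum_const, Finset.card_univ, nsmul_eq_mul,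
      ← Finset.sum_filter, Finset.sum_const, nsmul_eq_mul]
  have h3 : ((univ.filter (fun k : κ => -sh k ∈ E)).card : ℝ) ≤ (E.card : ℝ) := by
    have : (univ.filter (fun k : κ => -sh k ∈ E)).card ≤ E.card := by
      apply Finset.card_le_card_of_injOn (fun k : κ => -sh k)
      · intro k hk
        rw [Finset.mem_coe, Finset.mem_filter] at hk
        exact hk.2
      · intro k _ k' _ hkk
        exact hsh (neg_injective hkk)
    exact_mod_cast this
  have h4 : (Fintype.card κ : ℝ) * K₁ ≤ L / 800 := by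
    calc (Fintype.card κ : ℝ) * K₁ ≤ (c * L) * (16 / c₃) :=
          mul_le_mul huc hK16 hK₁0 (by positivity)
      _ ≤ (c₃ / 12800 * L) * (16 / c₃) := by
          apply mul_le_mul_of_nonneg_right _ (by positivity)
          exact mul_le_mul_of_nonneg_right hcc hL
      _ = L / 800 := by field_simp; ring
  have h5 : ((univ.filter (fun k : κ => -sh k ∈ E)).card : ℝ) * K₂ ≤ L ^ (7 / 10 : ℝ) * K₂ :=
    mul_le_mul_of_nonneg_right (h3.trans hE) hK₂0
  linarith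

theorem qcov : ∃ c : ℝ, 0 < c ∧ ∃ X₀ : ℝ, ∀ X : ℝ, X₀ ≤ X → ∀ 𝒮 : Finset ℤ,
    (∀ h ∈ 𝒮, |(h : ℝ)| ≤ (Real.log X) ^ (11 / 10 : ℝ) ∧ ¬ IsSquare (-h)) →
    (𝒮.card : ℝ) ≤ c * Real.log X →
    ∀ (𝒜 : Finset ℤ) (N Err : ℝ), X ^ (1 / 2 : ℝ) ≤ N → 0 ≤ Err → Err ≤ X ^ (1 / 20 : ℝ) →
    (∀ q : ℕ, Squarefree q → (q : ℝ) ≤ X ^ (1 / 4 : ℝ) →
      (∀ p ∈ q.primeFactors, (Real.log X) ^ 2 < p) →
      ∀ r : ℤ, |((𝒜.filter (fun x => (q : ℤ) ∣ x - r)).card : ℝ) - N / q| ≤ Err) →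
    ∃ x ∈ 𝒜, ∀ h ∈ 𝒮, ∃ p : ℕ, p.Prime ∧ (Real.log X) ^ 2 < p ∧ (p : ℝ) ≤ X ^ (1 / 10 : ℝ) ∧
      (p : ℤ) ∣ x ^ 2 + h := by
  obtain ⟨c₂, hc₂, hAl⟩ := A_lower
  obtain ⟨C, hC0, LT, hT⟩ := T_lower
  obtain ⟨CM₀, hM₀⟩ := Pool.Agent.Helper256.KM.mertens_inv
  have hCM0 : 0 ≤ max CM₀ 0 := le_max_right _ _
  have hc₃ : 0 < c₂ * Real.exp (-C) := mul_pos hc₂ (Real.exp_pos _)
  obtain ⟨c₃, hc3⟩ : ∃ c₃, c₃ = c₂ * Real.exp (-C) := ⟨_, rfl⟩
  rw [← hc3] at hc₃
  have hC1 : 1 ≤ 2 / c₃ + 1 := by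
    have : 0 < 2 / c₃ := by positivity
    linarith
  obtain ⟨c, hc⟩ : ∃ c : ℝ, c = min (1 / 8) (c₃ / 12800) := ⟨_, rfl⟩
  have hc0 : 0 < c := by rw [hc]; exact lt_min (by norm_num) (by positivity)
  have hc8 : c ≤ 1 / 8 := by rw [hc]; exact min_le_left _ _
  have hcc : c ≤ c₃ / 12800 := by rw [hc]; exact min_le_right _ _
  obtain ⟨L₀, hL₀⟩ := ev_facts (2 / c₃ + 1) (max CM₀ 0)
  obtain ⟨L₁, hL₁⟩ := ev_more c₃ hc₃
  refine ⟨c, hc0, Real.exp (max (max L₀ L₁) LT), ?_⟩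
  intro X hX 𝒮 h𝒮 hcard𝒮 𝒜 N Err hN hErr0 hErr hcount
  have hX0 : 0 < X := lt_of_lt_of_le (Real.exp_pos _) hX
  obtain ⟨L, hL⟩ : ∃ L, L = Real.log X := ⟨_, rfl⟩
  rw [← hL] at h𝒮 hcard𝒮 hcount ⊢
  have hXL : X = Real.exp L := by rw [hL]; exact (Real.exp_log hX0).symm
  have hLmax : max (max L₀ L₁) LT ≤ L := by
    rw [hL, ← Real.log_exp (max (max L₀ L₁) LT)]
    exact Real.log_le_log (Real.exp_pos _) hX
  obtain ⟨f1, f2, f3, f4, f5, f6⟩ := hL₀ L (((le_max_left _ _).trans (le_max_left _ _)).trans hLmax)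
  obtain ⟨k1, k2, k3⟩ := hL₁ L (((le_max_right _ _).trans (le_max_left _ _)).trans hLmax)
  obtain ⟨E, hE, hTD⟩ := hT L ((le_max_right _ _).trans hLmax)
  obtain ⟨m, hm1, hm2, hm3⟩ := scales (2 / c₃ + 1) L hC1 f1 f3 f5
  obtain ⟨l, hl⟩ : ∃ l, l = Real.log L := ⟨_, rfl⟩
  rw [← hl] at f1 f2 f6 k1 k2 hm1 hm2 hm3 hTD
  clear f3 hLmax hL₀ hL₁ hT
  have hl0 : 0 < l := by linarith
  have hLpos : 0 < L := by linarith
  have hLexp : L = Real.exp l := by rw [hl]; exact (Real.exp_log hLpos).symm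
  have hXr : ∀ s : ℝ, X ^ s = Real.exp (s * L) := by
    intro s
    rw [hXL, ← Real.exp_mul, mul_comm]
  obtain ⟨z₀, hz₀⟩ : ∃ z₀, z₀ = Real.exp (2 * (2 / c₃ + 1) * l) := ⟨_, rfl⟩
  obtain ⟨z, hz⟩ : ∃ z, z = z₀ ^ (2 ^ m) := ⟨_, rfl⟩
  have hlogz0 : Real.log z₀ = 2 * (2 / c₃ + 1) * l := by rw [hz₀]; exact Real.log_exp _
  have hz01 : 1 < z₀ := by rw [hz₀]; exact Real.one_lt_exp_iff.mpr (by positivity)
  have hlogz : Real.log z = (2:ℝ) ^ m * (2 * (2 / c₃ + 1) * l) := by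
    rw [hz, Real.log_pow, hlogz0]
    push_cast
    ring
  have hzpos : 0 < z := by rw [hz]; positivity
  have hlz1 : Real.log z ≤ L / (1000 * l) := by rw [hlogz]; exact hm1
  have hlz2 : L / (2000 * l) ≤ Real.log z := by rw [hlogz]; exact hm2
  have hyz' : 2 * l ≤ Real.log z := by
    rw [hlogz]
    have h2j : (1:ℝ) ≤ 2 ^ m := one_le_pow₀ (by norm_num)
    have h1 : 2 * l ≤ 1 * (2 * (2 / c₃ + 1) * l) := by nlinarith
    have h2 : 0 < 2 * (2 / c₃ + 1) * l := by positivity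
    nlinarith
  clear hlogz hm1 hm2
  have hlzpos : 0 < Real.log z := lt_of_lt_of_le (by positivity) hlz2
  have hzexp : z = Real.exp (Real.log z) := (Real.exp_log hzpos).symm
  have hz1 : 1 < z := by rw [hzexp]; exact Real.one_lt_exp_iff.mpr hlzpos
  have hlzL : Real.log z ≤ L / 10000 := by
    refine hlz1.trans ?_
    apply div_le_div_of_nonneg_left hLpos.le (by norm_num)
    linarith
  have hz10 : z ≤ X ^ (1 / 10 : ℝ) := by
    rw [hzexp, hXr]
    apply Real.exp_le_exp.mpr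
    linarith
  have hzL : z ≤ Real.exp L := by
    rw [hzexp]
    exact Real.exp_le_exp.mpr (by linarith)
  have hy1' : 1000 ≤ L ^ 2 := by nlinarith
  have hy1 : 3 ≤ L ^ 2 := by linarith
  have hlogy : Real.log (L ^ 2) = 2 * l := by rw [Real.log_pow, ← hl]; push_cast; ring
  have hyz : L ^ 2 ≤ z := by
    rw [← Real.log_le_log_iff (by linarith) hzpos, hlogy]
    exact hyz'
  -- the sieving primes
  obtain ⟨PP, hPP⟩ : ∃ PP, PP = PZ (L ^ 2) z := ⟨_, rfl⟩
  have hPPmem : ∀ p ∈ PP, p.Prime ∧ L ^ 2 < (p:ℝ) ∧ (p:ℝ) ≤ z := by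
    intro p hp
    rw [hPP] at hp
    unfold PZ at hp
    rw [Finset.mem_filter, Finset.mem_Icc] at hp
    refine ⟨hp.2.1, hp.2.2, ?_⟩
    calc (p:ℝ) ≤ (⌊z⌋₊ : ℝ) := by exact_mod_cast hp.1.2
      _ ≤ z := Nat.floor_le hzpos.le
  have hPprime : ∀ p ∈ PP, p.Prime := fun p hp => (hPPmem p hp).1
  have hPprime2 : ∀ p ∈ PP, p.Prime ∧ p ≠ 2 := fun p hp => ⟨(hPPmem p hp).1, by
    rintro rfl
    have := (hPPmem 2 hp).2.1
    push_cast at this
    linarith⟩
  have hn1 : (PP.card:ℝ) + 1 ≤ z := by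
    have h1 : PP ⊆ Finset.Icc 2 ⌊z⌋₊ := by
      intro p hp
      have hp' := hp
      rw [hPP] at hp'
      unfold PZ at hp'
      rw [Finset.mem_filter, Finset.mem_Icc] at hp'
      rw [Finset.mem_Icc]
      exact ⟨hp'.2.1.two_le, hp'.1.2⟩
    have h2 := Finset.card_le_card h1
    rw [Nat.card_Icc] at h2
    have h3 : 1 ≤ ⌊z⌋₊ := Nat.le_floor (by
      push_cast
      exact hz1.le)
    have h4 : PP.card + 1 ≤ ⌊z⌋₊ := by omega
    calc (PP.card:ℝ) + 1 ≤ (⌊z⌋₊ : ℝ) := by exact_mod_cast h4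
      _ ≤ z := Nat.floor_le hzpos.le
  -- the shifts
  let κ : Type := {h : ℤ // h ∈ 𝒮}
  let sh : κ → ℤ := fun k => k.1
  have hshi : Function.Injective sh := fun k k' h => Subtype.ext h
  have hshb : ∀ k : κ, |(sh k : ℝ)| ≤ L ^ (11 / 10 : ℝ) := fun k => (h𝒮 k.1 k.2).1
  have hshs : ∀ k : κ, ¬ IsSquare (-sh k) := fun k => (h𝒮 k.1 k.2).2
  have hL110 : 0 ≤ L ^ (11 / 10 : ℝ) := Real.rpow_nonneg hLpos.le _
  have hinj : ∀ p ∈ PP, ∀ k l : κ, k ≠ l → ¬ ((p : ℤ) ∣ sh k - sh l) := fun p hp k k' hkl =>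
    inj_of_small k3 (hshb k) (hshb k') (fun h => hkl (hshi h)) (hPPmem p hp).2.1
  have hnd : ∀ p ∈ PP, ∀ k : κ, ¬ (p : ℤ) ∣ sh k := by
    intro p hp k hd
    have h1 : sh k ≠ 0 := by
      intro h
      apply hshs k
      rw [h]
      exact ⟨0, by simp⟩
    apply inj_of_small (sh₂ := 0) k3 (hshb k) (by simpa using hL110) h1 (hPPmem p hp).2.1
    rwa [sub_zero]
  have hgdef : ∀ (i : Fin PP.card) (k : κ), gq PP sh i k =
      (1 + XX (-sh k) (emb PP i)) / ((emb PP i : ℕ) : ℝ) := fun i k => rfl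
  have hPy : ∀ i : Fin PP.card, L ^ 2 < ((emb PP i : ℕ) : ℝ) :=
    fun i => (hPPmem _ (emb_mem PP i)).2.1
  have hPz : ∀ i : Fin PP.card, ((emb PP i : ℕ) : ℝ) ≤ z := fun i => (hPPmem _ (emb_mem PP i)).2.2
  have hP1 : ∀ i : Fin PP.card, 1 < ((emb PP i : ℕ) : ℝ) := fun i => by linarith [hPy i]
  have hP0 : ∀ i : Fin PP.card, 0 < ((emb PP i : ℕ) : ℝ) := fun i => by linarith [hPy i]
  have hg0 : ∀ (i : Fin PP.card) (k : κ), 0 ≤ gq PP sh i k := fun i k => by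
    rw [hgdef]
    apply div_nonneg _ (hP0 i).le
    have := (abs_le.mp (XX_abs_le (-sh k) (emb PP i))).1
    linarith
  have hgP : ∀ (i : Fin PP.card) (k : κ), gq PP sh i k ≤ 2 / ((emb PP i : ℕ) : ℝ) := fun i k => by
    rw [hgdef]
    apply div_le_div_of_nonneg_right _ (hP0 i).le
    have := (abs_le.mp (XX_abs_le (-sh k) (emb PP i))).2
    linarith
  have hgy : ∀ (i : Fin PP.card) (k : κ), gq PP sh i k ≤ 2 / L ^ 2 := fun i k => by
    refine (hgP i k).trans ?_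
    exact div_le_div_of_nonneg_left (by norm_num) (by linarith) (hPy i).le
  -- the profiles
  have hAsum : ∀ (k : κ) (x : ℝ), Asum (fun i => ((emb PP i : ℕ) : ℝ)) (fun i => gq PP sh i k) x =
      ∑ s ∈ (PP.powerset.filter (fun s : Finset ℕ => s.Nonempty ∧ ∏ p ∈ s, (p : ℝ) ≤ x)),
        ∏ p ∈ s, (1 + XX (-sh k) p) / p := fun k x =>
    Asum_enum PP (fun p => (1 + XX (-sh k) p) / p) x
  obtain ⟨K₁, hK₁⟩ : ∃ K₁, K₁ = 4 / (c₃ / (4 * l) * ((m + 1 : ℕ) : ℝ)) := ⟨_, rfl⟩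
  obtain ⟨K₂, hK₂⟩ : ∃ K₂, K₂ = 16 * l * Real.exp (l / 20) / c₃ := ⟨_, rfl⟩
  have hgood : ∀ k : κ, -sh k ∉ E → ∃ h, Hyp (fun i => ((emb PP i : ℕ) : ℝ))
      (fun i => gq PP sh i k) h z K₁ := by
    intro k hk
    rw [hK₁]
    apply prof_good hc₃ hl0 hlogz0 hz01 hz hy1 hlogy _ _ hP1 (fun i => hg0 i k)
    intro x hx1 hx2
    have h1 := hAl (L ^ 2) z x C (fun p => XX (-sh k) p)
      (fun p => XX_abs_le _ _) hy1 hx1 hx2 hC0
      (fun w hw1 hw2 => (hTD (-sh k) (hshs k) (by push_cast; rw [abs_neg]; exact hshb k)).2 hk w hw1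
        (hw2.trans hzL))
    rw [← hc3, ← hPP] at h1
    rw [hAsum]
    exact h1
  have hbad : ∀ k : κ, ∃ h, Hyp (fun i => ((emb PP i : ℕ) : ℝ)) (fun i => gq PP sh i k) h z K₂ := by
    intro k
    rw [hK₂]
    apply prof_bad hc₃ hl0 hz1 hlz2 _ _ hP1 (fun i => hg0 i k) k1
    have h1 := hAl (L ^ 2) z z (C + l / 20) (fun p => XX (-sh k) p)
      (fun p => XX_abs_le _ _) hy1 hyz le_rfl (by positivity)
      (fun w hw1 hw2 => (hTD (-sh k) (hshs k) (by push_cast; rw [abs_neg]; exact hshb k)).1 w hw1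
        (hw2.trans hzL))
    have h2 : c₂ * Real.exp (-(C + l / 20)) = c₃ * Real.exp (-(l / 20)) := by
      rw [hc3, mul_assoc, ← Real.exp_add]
      congr 2
      ring
    rw [h2, hlogy, ← hPP] at h1
    rw [hAsum]
    exact h1
  have hprof : ∀ k : κ, ∃ h, Hyp (fun i => ((emb PP i : ℕ) : ℝ)) (fun i => gq PP sh i k) h z
      (if -sh k ∈ E then K₂ else K₁) := by
    intro k
    by_cases hk : -sh k ∈ E
    · obtain ⟨h, H⟩ := hbad k
      refine ⟨h, ?_⟩
      rw [if_pos hk]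
      exact H
    · obtain ⟨h, H⟩ := hgood k hk
      refine ⟨h, ?_⟩
      rw [if_neg hk]
      exact H
  clear hgood hbad hAsum hTD hAl
  choose h H using hprof
  have hK16 : K₁ ≤ 16 / c₃ := by
    rw [hK₁, div_le_div_iff₀ (by positivity) hc₃]
    have h1 : c₃ / 4 ≤ c₃ / (4 * l) * ((m + 1 : ℕ) : ℝ) := by
      push_cast
      calc c₃ / 4 = c₃ / (4 * l) * l := by field_simp
        _ ≤ c₃ / (4 * l) * (m + 1) := mul_le_mul_of_nonneg_left hm3 (by positivity)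
    linarith
  have hK₁0 : 0 ≤ K₁ := by rw [hK₁]; positivity
  have hK₂0 : 0 ≤ K₂ := by rw [hK₂]; positivity
  have hucard : (Fintype.card κ : ℝ) = (𝒮.card : ℝ) := by
    congr 1
    exact Fintype.card_coe 𝒮
  have huc : (Fintype.card κ : ℝ) ≤ c * L := by rw [hucard]; exact hcard𝒮
  have hKsum : ∑ k, (if -sh k ∈ E then K₂ else K₁) ≤ L / 400 :=
    Ksum_le E sh hshi hc₃ hLpos.le hK₁0 hK16 hK₂0 hcc hc0.le huc hE (by rw [hK₂]; exact k2)
  obtain ⟨u, hu⟩ : ∃ u, u = (Fintype.card κ : ℝ) := ⟨_, rfl⟩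
  have hu0 : 0 ≤ u := by rw [hu]; exact Nat.cast_nonneg _
  have huL : u ≤ L / 8 := by
    rw [hu]
    refine huc.trans ?_
    calc c * L ≤ 1 / 8 * L := mul_le_mul_of_nonneg_right hc8 hLpos.le
      _ = L / 8 := by ring
  -- the sum of the densities
  have hmax : 20 * max CM₀ 0 ≤ l := f2
  have hz3 : 3 ≤ z := by linarith
  have hsumP : ∑ i : Fin PP.card, 1 / ((emb PP i : ℕ) : ℝ) ≤ l + max CM₀ 0 := by
    have h1 : ∑ i : Fin PP.card, 1 / ((emb PP i : ℕ) : ℝ) = ∑ p ∈ PP, 1 / (p:ℝ) := by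
      have : PP = univ.map (emb PP) := by
        ext p
        rw [Finset.mem_map]
        constructor
        · intro hp
          obtain ⟨i, hi⟩ := emb_surj PP hp
          exact ⟨i, Finset.mem_univ _, hi⟩
        · rintro ⟨i, _, rfl⟩
          exact emb_mem PP i
      conv_rhs => rw [this]
      rw [Finset.sum_map]
    rw [h1, hPP, hl]
    exact sum_inv_PZ hM₀ hz3 (by linarith)
  have hGk : ∀ k : κ, ∑ i, gq PP sh i k ≤ 2 * (l + max CM₀ 0) := by
    intro k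
    calc ∑ i, gq PP sh i k ≤ ∑ i : Fin PP.card, 2 * (1 / ((emb PP i : ℕ) : ℝ)) := by
          apply Finset.sum_le_sum
          intro i _
          have := hgP i k
          have e : 2 * (1 / ((emb PP i : ℕ) : ℝ)) = 2 / ((emb PP i : ℕ) : ℝ) := by ring
          rw [e]
          exact this
      _ = 2 * ∑ i : Fin PP.card, 1 / ((emb PP i : ℕ) : ℝ) := by rw [Finset.mul_sum]
      _ ≤ 2 * (l + max CM₀ 0) := by linarith
  -- parameters
  obtain ⟨J, hJ⟩ : ∃ J : ℕ, J = 2 * ⌈22 * l⌉₊ := ⟨_, rfl⟩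
  have hJ1 : 44 * l ≤ (J:ℝ) := by
    have := Nat.le_ceil (22 * l)
    rw [hJ]; push_cast; linarith
  have hJ2 : (J:ℝ) ≤ 45 * l := by
    have := Nat.ceil_lt_add_one (show 0 ≤ 22 * l by positivity)
    rw [hJ]; push_cast; linarith
  have hJe : Even J := ⟨⌈22 * l⌉₊, by rw [hJ]; ring⟩
  have hQ1 : 1 ≤ Real.exp (L / 40) := Real.one_le_exp (by positivity)
  have hzJ : z ^ J ≤ Real.exp (45 * L / 1000) := by
    rw [hzexp, ← Real.exp_nat_mul]
    apply Real.exp_le_exp.mpr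
    calc (J:ℝ) * Real.log z ≤ (45 * l) * (L / (1000 * l)) :=
          mul_le_mul hJ2 hlz1 hlzpos.le (by positivity)
      _ = 45 * L / 1000 := by field_simp
  -- sizes of supports
  have hL1 : 1 ≤ L := by linarith
  have hδ : ∀ D : Col PP.card κ, qq (fun i => ((emb PP i : ℕ) : ℝ)) D ≤ Real.exp (L / 40) →
      ∀ k, 2 * ∑ i with D i ≠ none, gq PP sh i k ≤ 2 / L := by
    intro D hD k
    have h1 : ∑ i with D i ≠ none, gq PP sh i k ≤ (supp D).card * (2 / L ^ 2) := by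
      have : ∑ i ∈ supp D, gq PP sh i k ≤ ∑ i ∈ supp D, (2 / L ^ 2) :=
        Finset.sum_le_sum (fun i _ => hgy i k)
      rw [Finset.sum_const, nsmul_eq_mul] at this
      exact this
    have h2 := supp_card_le (fun i => ((emb PP i : ℕ) : ℝ)) hLexp hL1 hPy D (L / 40) hD
    have h2' : ((supp D).card : ℝ) ≤ L / 40 := by
      have h2 : 0 ≤ ((supp D).card : ℝ) := Nat.cast_nonneg _
      nlinarith
    have h3 : ((supp D).card : ℝ) * (2 / L ^ 2) ≤ L / 40 * (2 / L ^ 2) :=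
      mul_le_mul_of_nonneg_right h2' (by positivity)
    have h4 : L / 40 * (2 / L ^ 2) = 1 / (20 * L) := by field_simp; norm_num
    have h5 : 1 / (20 * L) ≤ 1 / L := by
      apply one_div_le_one_div_of_le hLpos
      linarith
    have h6 : 2 / L = 2 * (1 / L) := by ring
    rw [h6]
    linarith
  -- the count
  have hevent : ∀ D : Col PP.card κ,
      qq (fun i => ((emb PP i : ℕ) : ℝ)) D ≤ Real.exp (L / 40) ^ 2 * z ^ J →
      |((𝒜.filter (fun a => ∀ i, D i ≠ none → colq PP sh a i = D i)).card : ℝ) -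
        N * nu (gq PP sh) D| ≤ Real.exp (7 * L / 100) := by
    intro D hD
    have hD1 : qq (fun i => ((emb PP i : ℕ) : ℝ)) D ≤ Real.exp (L / 10) := by
      refine hD.trans ?_
      calc Real.exp (L / 40) ^ 2 * z ^ J ≤ Real.exp (L / 40) ^ 2 * Real.exp (45 * L / 1000) :=
            mul_le_mul_of_nonneg_left hzJ (by positivity)
        _ = Real.exp (L / 20 + 45 * L / 1000) := by
            rw [← Real.exp_nat_mul, ← Real.exp_add]
            congr 1
            push_cast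
            ring
        _ ≤ Real.exp (L / 10) := Real.exp_le_exp.mpr (by linarith)
    have hcast : ((∏ i ∈ supp D, emb PP i : ℕ) : ℝ) = qq (fun i => ((emb PP i : ℕ) : ℝ)) D :=
      qn_cast PP D
    have h1 := event_count hPprime2 hinj hnd D 𝒜 N Err hErr0 (by
      intro r
      apply hcount _ (qn_squarefree hPprime D)
      · have h2 : ((∏ i ∈ supp D, emb PP i : ℕ) : ℝ) ≤ X ^ (1 / 4 : ℝ) := by
          rw [hcast, hXr]
          exact hD1.trans (Real.exp_le_exp.mpr (by linarith))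
        exact h2
      · intro p hp
        exact (hPPmem p (qn_primeFactors hPprime D hp)).2.1)
    refine h1.trans ?_
    have h2 := supp_card_le (fun i => ((emb PP i : ℕ) : ℝ)) hLexp hL1 hPy D (L / 10) hD1
    have h3 : (2:ℝ) ^ (supp D).card ≤ Real.exp (L / 50) := by
      have e1 : (2:ℝ) ^ (supp D).card ≤ Real.exp ((supp D).card : ℝ) := by
        have : Real.exp ((supp D).card : ℝ) = (Real.exp 1) ^ (supp D).card := by
          rw [← Real.exp_nat_mul, mul_one]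
        rw [this]
        apply pow_le_pow_left₀ (by norm_num)
        have := Real.add_one_le_exp (1:ℝ)
        linarith
      refine e1.trans (Real.exp_le_exp.mpr ?_)
      have h4 : 0 ≤ ((supp D).card : ℝ) := Nat.cast_nonneg _
      nlinarith
    rw [hXr] at hErr
    calc 2 ^ (supp D).card * Err ≤ Real.exp (L / 50) * Real.exp (1 / 20 * L) :=
          mul_le_mul h3 hErr hErr0 (Real.exp_pos _).le
      _ = Real.exp (7 * L / 100) := by rw [← Real.exp_add]; congr 1; ring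
  have hNpos : 0 < N := lt_of_lt_of_le (Real.rpow_pos_of_pos hX0 _) hN
  rw [hXr] at hN
  -- apply the core theorem
  have hL8 : (80:ℝ) ≤ L := by linarith
  clear hcount hErr hK16 hK₁0 hK₂0 hcc hcard𝒮 hE huc hucard k1 k2 k3
  obtain ⟨a, ha, hcov⟩ := core (κ := κ) 𝒜 (colq PP sh) H (Real.exp (L / 40)) (2 / L) 3 N
    (Real.exp (7 * L / 100)) (2 * (l + max CM₀ 0)) J
    hJe (by norm_num) hNpos (Real.exp_pos _).le hQ1 hz1 (fun i => (hP1 i).le) hg0 hPz
    (fun i k => by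
      have h1 : (2:ℝ) / L ^ 2 ≤ 1 := by rw [div_le_one (by linarith)]; linarith
      exact (hgy i k).trans h1)
    (fun i k => by
      have h1 : (2:ℝ) / L ^ 2 ≤ 1 / 9 := by
        rw [div_le_div_iff₀ (by linarith) (by norm_num)]
        linarith
      have := hgy i k
      linarith)
    (fun i => by
      have h0 : ∑ k, gq PP sh i k ≤ ∑ k : κ, 2 / L ^ 2 := Finset.sum_le_sum (fun k _ => hgy i k)
      rw [Finset.sum_const, Finset.card_univ, nsmul_eq_mul, ← hu] at h0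
      have h1 : u * (2 / L ^ 2) ≤ (L / 8) * (2 / L ^ 2) :=
        mul_le_mul_of_nonneg_right huL (by positivity)
      have h2 : (L / 8) * (2 / L ^ 2) = 1 / (4 * L) := by field_simp; norm_num
      have h3 : 1 / (4 * L) ≤ 1 := by rw [div_le_one (by positivity)]; linarith
      linarith)
    (by positivity) hGk hδ
    (by
      rw [← hu]
      have : u * (2 / L) ≤ (L / 8) * (2 / L) := mul_le_mul_of_nonneg_right huL (by positivity)
      have e : (L / 8) * (2 / L) = 1 / 4 := by field_simp; norm_num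
      linarith)
    (by
      rw [← hu]
      have h1 : ∑ i : Fin PP.card, 1 / ((emb PP i : ℕ) : ℝ) ^ 2 ≤
          (1 / L ^ 2) * ∑ i : Fin PP.card, 1 / ((emb PP i : ℕ) : ℝ) := by
        rw [Finset.mul_sum]
        apply Finset.sum_le_sum
        intro i _
        have e1 : 1 / ((emb PP i : ℕ) : ℝ) ^ 2 =
            (1 / ((emb PP i : ℕ) : ℝ)) * (1 / ((emb PP i : ℕ) : ℝ)) := by
          have := (hP0 i).ne'
          field_simp
        rw [e1]
        apply mul_le_mul_of_nonneg_right _ (one_div_nonneg.mpr (hP0 i).le)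
        exact one_div_le_one_div_of_le (by linarith) (hPy i).le
      have h2 : (1 / L ^ 2) * ∑ i : Fin PP.card, 1 / ((emb PP i : ℕ) : ℝ) ≤ (1 / L ^ 2) * (2 * L) := by
        apply mul_le_mul_of_nonneg_left _ (by positivity)
        linarith
      have h3 : (1 / L ^ 2) * (2 * L) = 2 / L := by field_simp
      have h4 : 2 * u * ∑ i : Fin PP.card, 1 / ((emb PP i : ℕ) : ℝ) ^ 2 ≤ 2 * (L / 8) * (2 / L) := by
        apply mul_le_mul _ (by linarith) (Finset.sum_nonneg (fun i _ => by positivity))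
          (by positivity)
        linarith
      have e : 2 * (L / 8) * (2 / L) = 1 / 2 := by field_simp; norm_num
      linarith)
    (by
      rw [← hu]
      exact num_tail hLexp f1 f5 hu0 huL hzpos hlzpos hlz1 hlz2 hKsum)
    (by
      rw [← hu]
      exact num_mom hLexp f1 f5 hu0 huL hJ1 (by linarith))
    hevent
    (by
      rw [← hu]
      exact num_fin f5 hu0 (by linarith) hn1 hzJ hN)
  refine ⟨a, ha, fun h' hh' => ?_⟩
  obtain ⟨i, hi⟩ := hcov ⟨h', hh'⟩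
  have h1 := (colq_eq hinj a i ⟨h', hh'⟩).mp hi
  have h2 := hPPmem _ (emb_mem PP i)
  exact ⟨emb PP i, h2.1, h2.2.1, h2.2.2.trans hz10, h1⟩

end Pool.Agent.H378R2.QG
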