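import Pool.Agent.H378R2.QG.V
import Pool.Agent.H74R2.QG.QR
import Pool.Agent.H256R2.SC.G1

set_option autoImplicit false
set_option linter.unusedSectionVars false

/-! # Prime-free neighbourhoods of record length around perfect squares (project QG, helper378) -/

namespace Pool.Agent.H378R2.QG

open Finset Filter
open Pool.Agent.H256R2.SC (ff)
open Pool.Agent.H256R2.SC.LG (ana exists_crt count_Ioc)

open scoped Classical

/-- counting the integers of an interval in a class mod `P` and a class mod `q` -/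
theorem count_two (A B : ℤ) (hAB : A ≤ B) (P q : ℕ) (hP : 0 < P) (hq : 0 < q)
    (hc : Nat.Coprime P q) (b r : ℤ) :
    |((((Ioc A B).filter (fun x => (P : ℤ) ∣ x - b)).filter (fun x => (q : ℤ) ∣ x - r)).card : ℝ) -
      (((B : ℝ) - A) / P) / q| ≤ 1 := by
  have hcop : IsCoprime (P : ℤ) (q : ℤ) := Nat.isCoprime_iff_coprime.mpr hc
  obtain ⟨u, v, huv⟩ := hcop
  set c : ℤ := b + P * u * (r - b) with hcdef
  have h1 : (((Ioc A B).filter (fun x => (P : ℤ) ∣ x - b)).filter (fun x => (q : ℤ) ∣ x - r)) =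
      (Ioc A B).filter (fun x => ((P * q : ℕ) : ℤ) ∣ x - c) := by
    rw [Finset.filter_filter]
    apply Finset.filter_congr
    intro x _
    push_cast
    constructor
    · rintro ⟨h2, h3⟩
      apply IsCoprime.mul_dvd (Nat.isCoprime_iff_coprime.mpr hc)
      · have e : x - c = (x - b) - P * (u * (r - b)) := by rw [hcdef]; ring
        rw [e]
        exact dvd_sub h2 (dvd_mul_right _ _)
      · have e : x - c = (x - r) + q * (v * (r - b)) := by
          rw [hcdef]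
          linear_combination (-(r - b)) * huv
        rw [e]
        exact dvd_add h3 (dvd_mul_right _ _)
    · intro h2
      have hP' : (P : ℤ) ∣ x - c := (dvd_mul_right _ _).trans h2
      have hq' : (q : ℤ) ∣ x - c := (dvd_mul_left _ _).trans h2
      constructor
      · have e : x - b = (x - c) + P * (u * (r - b)) := by rw [hcdef]; ring
        rw [e]
        exact dvd_add hP' (dvd_mul_right _ _)
      · have e : x - r = (x - c) - q * (v * (r - b)) := by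
          rw [hcdef]
          linear_combination (r - b) * huv
        rw [e]
        exact dvd_sub hq' (dvd_mul_right _ _)
  rw [h1]
  have h2 := count_Ioc A B hAB (P * q) (Nat.mul_pos hP hq) c
  have e : (((B : ℝ) - A) / P) / q = ((B : ℝ) - A) / ((P * q : ℕ) : ℝ) := by
    push_cast
    rw [div_div]
  rw [e]
  exact h2

theorem ev_pow : ∃ X₀ : ℝ, ∀ X : ℝ, X₀ ≤ X → 10 ≤ Real.log X ∧
    Real.log X / 10 * (Real.log (Real.log X / 10)) ^ 2 ≤ (Real.log X) ^ (11 / 10 : ℝ) ∧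
    100 * (Real.log X) ^ 2 ≤ X ∧ 1 ≤ X ^ (1 / 20 : ℝ) := by
  have h1 := (isLittleO_log_rpow_rpow_atTop (s := 1 / 10) 2 (by norm_num)).def one_pos
  have h2 := (Real.isLittleO_pow_log_id_atTop (n := 2)).def (show (0:ℝ) < 1 / 100 by norm_num)
  have h3 : ∀ᶠ t : ℝ in atTop, 10 ≤ t ∧ t / 10 * (Real.log (t / 10)) ^ 2 ≤ t ^ (11 / 10 : ℝ) := by
    filter_upwards [h1, eventually_ge_atTop (10:ℝ)] with t ht ht1
    refine ⟨ht1, ?_⟩
    have hl0 : 0 ≤ Real.log t := Real.log_nonneg (by linarith)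
    rw [Real.norm_eq_abs, Real.norm_eq_abs, abs_of_nonneg (Real.rpow_nonneg hl0 _),
      abs_of_nonneg (Real.rpow_nonneg (by linarith) _), one_mul] at ht
    have e1 : (Real.log t) ^ (2:ℝ) = (Real.log t) ^ 2 := by
      rw [← Real.rpow_natCast]; norm_num
    rw [e1] at ht
    have e2 : 0 ≤ Real.log (t / 10) := Real.log_nonneg (by linarith)
    have e3 : Real.log (t / 10) ≤ Real.log t := Real.log_le_log (by linarith) (by linarith)
    have e4 : (Real.log (t / 10)) ^ 2 ≤ (Real.log t) ^ 2 := pow_le_pow_left₀ e2 e3 2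
    have e5 : t ^ (11 / 10 : ℝ) = t * t ^ (1 / 10 : ℝ) := by
      conv_rhs => rw [← Real.rpow_one_add' (by linarith : (0:ℝ) ≤ t) (by norm_num)]
      norm_num
    rw [e5]
    calc t / 10 * (Real.log (t / 10)) ^ 2 ≤ t * (Real.log t) ^ 2 := by
          apply mul_le_mul (by linarith) e4 (sq_nonneg _) (by linarith)
      _ ≤ t * t ^ (1 / 10 : ℝ) := mul_le_mul_of_nonneg_left ht (by linarith)
  obtain ⟨X₀, hX₀⟩ := eventually_atTop.1 (((Real.tendsto_log_atTop.eventually h3).and h2).and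
    (eventually_ge_atTop (1:ℝ)))
  refine ⟨X₀, fun X hX => ?_⟩
  obtain ⟨⟨⟨e1, e2⟩, e3⟩, e4⟩ := hX₀ X hX
  refine ⟨e1, e2, ?_, Real.one_le_rpow e4 (by norm_num)⟩
  simp only [id, Real.norm_eq_abs, abs_of_nonneg (sq_nonneg (Real.log X)),
    abs_of_nonneg (by linarith : (0 : ℝ) ≤ X)] at e3
  linarith

theorem main : ∃ c : ℝ, 0 < c ∧ ∃ Z₀ : ℝ, ∀ Z : ℝ, Z₀ ≤ Z → ∀ M : ℝ, Z ≤ M →
    ∃ x : ℕ, M < x ∧ (x : ℝ) ≤ M + Z ∧ ∀ q : ℕ, q.Prime → c * ff Z < |(q : ℝ) - (x : ℝ) ^ 2| := by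
  obtain ⟨c₁, hc₁, X₁, hcov⟩ := qcov
  obtain ⟨C, hC, y₀, hsur⟩ := survivors
  obtain ⟨c, hc, X₂, hana⟩ := ana (y₀ := y₀) hc₁ hC
  obtain ⟨X₃, hev⟩ := ev_pow
  refine ⟨c, hc, max (max X₁ X₂) X₃, fun Z hZ M hM => ?_⟩
  obtain ⟨R, hR⟩ : ∃ R : ℕ, R = ⌊c * ff Z⌋₊ := ⟨_, rfl⟩
  obtain ⟨L, hL⟩ : ∃ L : ℝ, L = Real.log Z := ⟨_, rfl⟩
  obtain ⟨y, hy⟩ : ∃ y : ℝ, y = Real.log Z / 10 := ⟨_, rfl⟩
  obtain ⟨a1, a2, a3, a4, a5, a6, a7, a8, a9, a10, a11, a12, a13, a14, a15, a16, a17⟩ :=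
    hana Z (((le_max_right _ _).trans (le_max_left _ _)).trans hZ) y _ hy rfl R hR
  obtain ⟨b1, b2, b3, b4⟩ := hev Z ((le_max_right _ _).trans hZ)
  have hcovZ := hcov Z (((le_max_left _ _).trans (le_max_left _ _)).trans hZ)
  have hs := hsur y a3 R a5 a7
  rw [← hL] at b1 b3
  have hZ0 : 0 < Z := by linarith
  have hRL : (R : ℝ) ≤ L ^ 2 := by rw [hL]; exact a9
  have hZ1000 : 10000 ≤ Z := by nlinarith
  have hLZ : 100 * L ^ 2 ≤ Z := b3
  -- the small primes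
  obtain ⟨P, hP⟩ : ∃ P : ℕ, P = primorial ⌊y⌋₊ := ⟨_, rfl⟩
  have hP0 : 0 < P := by rw [hP]; exact primorial_pos _
  obtain ⟨b0, hb0, hb0'⟩ := exists_crt ⌊y⌋₊ (cl y)
  -- the survivors
  obtain ⟨S, hS⟩ : ∃ S : Finset ℤ, S = ((Finset.Icc (-(R : ℤ)) R).filter (fun h => h ≠ 0 ∧
      ∀ p : ℕ, p.Prime → (p : ℝ) ≤ y → ¬ ((p : ℤ) ∣ (cl y p : ℤ) ^ 2 + h))).filter
        (fun h => ¬ IsSquare (-h)) := ⟨_, rfl⟩
  have hScard : (S.card : ℝ) ≤ c₁ * Real.log Z := by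
    refine le_trans ?_ (hs.trans a8)
    rw [hS]
    exact_mod_cast Finset.card_filter_le _ _
  have hSb : ∀ h ∈ S, |(h : ℝ)| ≤ (Real.log Z) ^ (11 / 10 : ℝ) ∧ ¬ IsSquare (-h) := by
    intro h hh
    rw [hS, Finset.mem_filter, Finset.mem_filter, Finset.mem_Icc] at hh
    refine ⟨?_, hh.2⟩
    have h1 : |h| ≤ (R : ℤ) := abs_le.mpr hh.1.1
    have h2 : |(h : ℝ)| ≤ (R : ℝ) := by exact_mod_cast h1
    refine h2.trans (a7.trans ?_)
    rw [hy]
    exact b2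
  -- the set of the `x`
  obtain ⟨A, hA⟩ : ∃ A : ℤ, A = ⌊M⌋ := ⟨_, rfl⟩
  obtain ⟨B, hB⟩ : ∃ B : ℤ, B = ⌊M + Z⌋ := ⟨_, rfl⟩
  have hAB : A ≤ B := by rw [hA, hB]; exact Int.floor_mono (by linarith)
  have hA1 : (A : ℝ) ≤ M := by rw [hA]; exact Int.floor_le _
  have hA2 : M < (A : ℝ) + 1 := by rw [hA]; exact Int.lt_floor_add_one _
  have hB1 : (B : ℝ) ≤ M + Z := by rw [hB]; exact Int.floor_le _
  have hB2 : M + Z < (B : ℝ) + 1 := by rw [hB]; exact Int.lt_floor_add_one _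
  have hPR : (0 : ℝ) < P := by exact_mod_cast hP0
  rw [← hP] at a11
  have hN : Z ^ (1 / 2 : ℝ) ≤ ((B : ℝ) - A) / P := by
    rw [le_div_iff₀ hPR]
    have h1 : Z ^ (1 / 2 : ℝ) * Z ^ (1 / 2 : ℝ) = Z := by
      rw [← Real.rpow_add hZ0]; norm_num
    have h2 : 0 < Z ^ (1 / 2 : ℝ) := Real.rpow_pos_of_pos hZ0 _
    have h3 : Z ^ (1 / 2 : ℝ) * (4 * (P : ℝ)) ≤ Z := by
      calc Z ^ (1 / 2 : ℝ) * (4 * (P : ℝ)) ≤ Z ^ (1 / 2 : ℝ) * Z ^ (1 / 2 : ℝ) :=
            mul_le_mul_of_nonneg_left a11 h2.le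
        _ = Z := h1
    nlinarith
  obtain ⟨x, hx, hxS⟩ := hcovZ S hSb hScard ((Ioc A B).filter (fun x => (P : ℤ) ∣ x - b0))
    (((B : ℝ) - A) / P) 1 hN zero_le_one b4 (fun q hq1 hq2 hq3 r => by
      have hq0 : 0 < q := Nat.pos_of_ne_zero hq1.ne_zero
      have hcop : Nat.Coprime P q := by
        rw [Nat.coprime_iff_gcd_eq_one]
        by_contra hne
        obtain ⟨p, hp, hpd⟩ := Nat.exists_prime_and_dvd hne
        have h1 : p ∣ P := hpd.trans (Nat.gcd_dvd_left _ _)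
        have h2 : p ∣ q := hpd.trans (Nat.gcd_dvd_right _ _)
        have h3 := hq3 p (Nat.mem_primeFactors.mpr ⟨hp, h2, hq0.ne'⟩)
        rw [hP, primorial] at h1
        rw [Prime.dvd_finsetProd_iff hp.prime] at h1
        obtain ⟨p', hp', hpp'⟩ := h1
        rw [Finset.mem_filter, Finset.mem_range] at hp'
        have h4 : p = p' := (Nat.prime_dvd_prime_iff_eq hp hp'.2).1 hpp'
        have h5 : (p : ℝ) ≤ y := by
          have : p ≤ ⌊y⌋₊ := by omega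
          calc (p : ℝ) ≤ (⌊y⌋₊ : ℝ) := by exact_mod_cast this
            _ ≤ y := Nat.floor_le a4
        linarith
      exact count_two A B hAB P q hP0 hq0 hcop b0 r)
  rw [Finset.mem_filter, Finset.mem_Ioc] at hx
  obtain ⟨⟨hx1, hx2⟩, hx3⟩ := hx
  have hxM : M < (x : ℝ) := by
    have : (A : ℝ) + 1 ≤ x := by exact_mod_cast hx1
    linarith
  have hxZ : (x : ℝ) ≤ M + Z := by
    have : (x : ℝ) ≤ B := by exact_mod_cast hx2
    linarith
  have hx0 : 0 ≤ x := by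
    have : (0 : ℝ) < x := by linarith
    exact_mod_cast this.le
  obtain ⟨n, rfl⟩ := Int.eq_ofNat_of_zero_le hx0
  simp only [Int.ofNat_eq_natCast, Int.cast_natCast] at hxM hxZ hx3 hxS
  refine ⟨n, hxM, hxZ, fun q hq => ?_⟩
  by_contra hcon
  push Not at hcon
  -- the shift
  obtain ⟨h, hh⟩ : ∃ h : ℤ, h = (q : ℤ) - (n : ℤ) ^ 2 := ⟨_, rfl⟩
  have hhR : |(h : ℝ)| ≤ c * ff Z := by rw [hh]; push_cast; exact hcon
  have hhR' : |h| ≤ (R : ℤ) := by
    have h1 : (h.natAbs : ℝ) ≤ c * ff Z := by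
      rw [Nat.cast_natAbs]
      push_cast
      exact hhR
    have h2 : h.natAbs ≤ R := by rw [hR]; exact Nat.le_floor h1
    rw [Int.abs_eq_natAbs]
    exact_mod_cast h2
  have hqe : (q : ℤ) = (n : ℤ) ^ 2 + h := by rw [hh]; ring
  have hnZ : Z < n := by linarith
  have hhR2 : |(h : ℝ)| ≤ R := by exact_mod_cast hhR'
  have hqbig : Z < (q : ℝ) := by
    have h1 : (q : ℝ) = (n : ℝ) ^ 2 + h := by exact_mod_cast hqe
    have h2 := (abs_le.mp hhR2).1
    nlinarith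
  have hn2 : 2 ≤ n := by
    have : (2 : ℝ) ≤ n := by linarith
    exact_mod_cast this
  have hprime : ∀ p : ℕ, p.Prime → (p : ℝ) ≤ Z → ¬ (p : ℤ) ∣ (n : ℤ) ^ 2 + h := by
    intro p hp hpZ hd
    rw [← hqe] at hd
    have h1 : p ∣ q := by exact_mod_cast hd
    have h2 : p = q := (Nat.prime_dvd_prime_iff_eq hp hq).1 h1
    rw [h2] at hpZ
    linarith
  by_cases h0 : h = 0
  · rw [h0, add_zero] at hqe
    have h1 : q = n ^ 2 := by exact_mod_cast hqe
    rw [h1] at hq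
    exact (Nat.Prime.not_prime_pow (le_refl 2)) hq
  by_cases hsq : IsSquare (-h)
  · obtain ⟨t, ht⟩ := hsq
    obtain ⟨s, hs'⟩ : ∃ s : ℕ, s = t.natAbs := ⟨_, rfl⟩
    have hts : (s : ℤ) * s = -h := by
      rw [hs', ht]
      exact Int.natAbs_mul_self
    have hs0 : 1 ≤ s := by
      rcases Nat.eq_zero_or_pos s with h1 | h1
      · rw [h1] at hts
        simp at hts
        exact absurd hts h0
      · exact h1
    have hsL : (s : ℝ) ≤ R := by
      have h1 : (s : ℝ) * s = -h := by exact_mod_cast hts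
      have h2 := (abs_le.mp hhR2).1
      have h3 : (1 : ℝ) ≤ s := by exact_mod_cast hs0
      nlinarith
    have hsn : s + 2 ≤ n := by
      have : (s : ℝ) + 2 ≤ n := by linarith
      exact_mod_cast this
    have h1 : (q : ℤ) = ((n : ℤ) - s) * ((n : ℤ) + s) := by
      rw [hqe]
      linear_combination hts
    obtain ⟨d, hd⟩ : ∃ d : ℕ, d = n - s := ⟨_, rfl⟩
    have h2 : q = d * (n + s) := by
      have h3 : (q : ℤ) = (d : ℤ) * ((n : ℤ) + s) := by
        rw [h1, hd]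
        push_cast [Nat.cast_sub (by omega : s ≤ n)]
        ring
      exact_mod_cast h3
    rw [h2] at hq
    exact Nat.not_prime_mul (by omega) (by omega) hq
  by_cases hsm : ∀ p : ℕ, p.Prime → (p : ℝ) ≤ y → ¬ ((p : ℤ) ∣ (cl y p : ℤ) ^ 2 + h)
  · have hmem : h ∈ S := by
      rw [hS, Finset.mem_filter, Finset.mem_filter, Finset.mem_Icc]
      exact ⟨⟨abs_le.mp hhR', h0, hsm⟩, hsq⟩
    obtain ⟨p, hp1, hp2, hp3, hp4⟩ := hxS h hmem
    refine hprime p hp1 ?_ hp4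
    linarith
  · push Not at hsm
    obtain ⟨p, hp1, hp2, hp3⟩ := hsm
    have hpy : p ≤ ⌊y⌋₊ := Nat.le_floor hp2
    have hpP : (p : ℤ) ∣ (P : ℤ) := by
      rw [hP, primorial]
      have : p ∈ (Finset.range (⌊y⌋₊ + 1)).filter Nat.Prime := by
        rw [Finset.mem_filter, Finset.mem_range]
        exact ⟨by omega, hp1⟩
      exact_mod_cast Finset.dvd_prod_of_mem _ this
    have h1 : (p : ℤ) ∣ (n : ℤ) - b0 := hpP.trans hx3
    have h2 : (p : ℤ) ∣ (b0 : ℤ) - (cl y p : ℤ) := by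
      have := hb0' p hp1 hpy
      exact (Nat.modEq_iff_dvd.mp this.symm)
    have h3 : (p : ℤ) ∣ (n : ℤ) - (cl y p : ℤ) := by
      have := dvd_add h1 h2
      have e : (n : ℤ) - b0 + ((b0 : ℤ) - (cl y p : ℤ)) = (n : ℤ) - (cl y p : ℤ) := by ring
      rwa [e] at this
    refine hprime p hp1 (by linarith) ?_
    have h4 := dvd_add (Dvd.dvd.mul_right h3 ((n : ℤ) + (cl y p : ℤ))) hp3
    have e : ((n : ℤ) - (cl y p : ℤ)) * ((n : ℤ) + (cl y p : ℤ)) + ((cl y p : ℤ) ^ 2 + h) =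
        (n : ℤ) ^ 2 + h := by ring
    rwa [e] at h4

end Pool.Agent.H378R2.QG
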