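import Pool.Agent.H378R2.QG.Defs
import Pool.Agent.Helper919.Char
import Pool.Agent.H300R2.EC.Defs
import Pool.Agent.H256R2.SC.G1

set_option autoImplicit false
set_option linter.unusedVariables false

/-! # Project QG: stubs (never import this file in a hand-in) -/

namespace Pool.Agent.H378R2.QG.Stubs

open Finset
open Pool.Agent.H256R2.SC (Col fib er ins free supp avoid qq SS ind Lv Asum al nu1)
open Pool.Agent.H378R2.QG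

variable {n : ℕ} {κ : Type} [Fintype κ] [DecidableEq κ]

/-! ## QA (adapt SC/A.lean) -/

theorem tensor_upper (g : Fin n → κ → ℝ) (G β : Fin n → Option κ → ℝ)
    (hw : ∀ i (c : Option κ), 0 ≤ wt (g i) c) (hG : ∀ i c, 0 ≤ G i c) (hβ : ∀ i c, 0 ≤ β i c)
    (hloc : ∀ i (Y : Option κ → ℝ),
      ∑ c, wt (g i) c * G i c * (∑ a, psi1 (g i) a c * Y a) ^ 2 ≤ ∑ a, β i a * (Y a) ^ 2)
    (y : Col n κ → ℝ) :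
    EE g (fun x => (∏ i, G i (x i)) * (VV g y x) ^ 2) ≤ ∑ D, (∏ i, β i (D i)) * (y D) ^ 2 := by
  sorry

theorem tensor_lower (g : Fin n → κ → ℝ) (β : Fin n → Option κ → ℝ)
    (hw : ∀ i (c : Option κ), 0 ≤ wt (g i) c) (hβ : ∀ i c, 0 ≤ β i c)
    (hloc : ∀ i (Y : Option κ → ℝ),
      ∑ a, β i a * (Y a) ^ 2 ≤ ∑ c, wt (g i) c * (∑ a, psi1 (g i) a c * Y a) ^ 2)
    (y : Col n κ → ℝ) :
    ∑ D, (∏ i, β i (D i)) * (y D) ^ 2 ≤ EE g (fun x => (VV g y x) ^ 2) := by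
  sorry

/-! ## QB (adapt SC/B.lean) -/

theorem local_id (g : κ → ℝ) (Y : Option κ → ℝ) :
    ∑ c, wt g c * (∑ a, psi1 g a c * Y a) ^ 2 =
      (Y none) ^ 2 + ∑ k, g k * (Y (some k)) ^ 2 - (∑ k, g k * Y (some k)) ^ 2 := by
  sorry

theorem local_upper (g : κ → ℝ) (Y : Option κ → ℝ) :
    ∑ c, wt g c * (∑ a, psi1 g a c * Y a) ^ 2 ≤ ∑ a, nug g a * (Y a) ^ 2 := by
  sorry

theorem local_lower (g : κ → ℝ) (hg : ∀ k, 0 ≤ g k) (Y : Option κ → ℝ) :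
    ∑ a, nug g a * nu1 (1 - ∑ k, g k) a * (Y a) ^ 2 ≤
      ∑ c, wt g c * (∑ a, psi1 g a c * Y a) ^ 2 := by
  sorry

theorem local_wt (g : κ → ℝ) (t : ℝ) (hg : ∀ k, 0 ≤ g k) (ht : 0 ≤ t) (k₀ : κ)
    (htg : 3 * t * g k₀ ≤ 1) (Y : Option κ → ℝ) :
    ∑ c, wt g c * (if c = some k₀ then 1 + t else 1) * (∑ a, psi1 g a c * Y a) ^ 2 ≤
      ∑ a, bet g t k₀ a * (Y a) ^ 2 := by
  sorry

/-! ## QC (adapt SC/C.lean) -/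

theorem VV_red (g : Fin n → κ → ℝ) (y : Col n κ → ℝ) (k : κ) (x : Col n κ)
    (hx : ∀ i, x i ≠ some k) : VV g y x = VV g (red g y k) x := by
  sorry

/-- uses tensor_upper, local_upper, VV_red -/
theorem rough_bound (g : Fin n → κ → ℝ) (hg : ∀ i k, 0 ≤ g i k)
    (hw : ∀ i (c : Option κ), 0 ≤ wt (g i) c) (y : Col n κ → ℝ) (k : κ) :
    EE g (fun x => (if ∀ i, x i ≠ some k then 1 else 0) * (VV g y x) ^ 2) ≤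
      ∑ D, nu g D * (red g y k D) ^ 2 := by
  sorry

/-! ## QD (adapt SC/D.lean) -/

theorem red_yT {p : Fin n → ℝ} {g : Fin n → κ → ℝ} {h : κ → Finset (Fin n) → ℝ} {z : ℝ}
    {K : κ → ℝ} (H : ∀ k, Hyp p (fun i => g i k) (h k) z (K k))
    (Q δ : ℝ) (hQ : 0 < Q) (k : κ)
    (hδ : ∀ D : Col n κ, qq p D ≤ Q → 2 * ∑ i with D i ≠ none, g i k ≤ δ) :
    ∑ D : Col n κ, nu g D * (red g (yT p h Q) k D) ^ 2 ≤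
      δ ^ 2 * Zs g h + ∑ D : Col n κ with Q / z < qq p D, (yy h D) ^ 2 * nu g D := by
  sorry

/-! ## QE (adapt SC/E.lean) -/

theorem tail_bound {p : Fin n → ℝ} {g : Fin n → κ → ℝ} {h : κ → Finset (Fin n) → ℝ} {z : ℝ}
    {K : κ → ℝ} (H : ∀ k, Hyp p (fun i => g i k) (h k) z (K k)) (hz : 1 < z)
    (Q' : ℝ) (hQ' : 0 < Q') :
    ∑ D : Col n κ with Q' < qq p D, (yy h D) ^ 2 * nu g D ≤
      Real.exp (2 * (∑ k, K k) / Real.log z - Real.log Q' / Real.log z) * Zs g h := by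
  sorry

/-! ## QF (adapt SC/F.lean) -/

theorem weighted_sum {p : Fin n → ℝ} {g : Fin n → κ → ℝ} {h : κ → Finset (Fin n) → ℝ} {z : ℝ}
    {K : κ → ℝ} (H : ∀ k, Hyp p (fun i => g i k) (h k) z (K k)) (t : ℝ) (ht : 0 ≤ t) (k₀ : κ) :
    ∑ D : Col n κ, (∏ i, bet (g i) t k₀ (D i)) * (yy h D) ^ 2 ≤
      Real.exp ((2 + 6 * t) * ∑ i, g i k₀) * Zs g h := by
  sorry

/-! ## QH (adapt SC/H2.lean, SC/H3.lean) -/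

theorem Lv_VV (p : Fin n → ℝ) (g : Fin n → κ → ℝ) (hp : ∀ i, 1 ≤ p i) (hg0 : ∀ i k, 0 ≤ g i k)
    (hg1 : ∀ i k, g i k ≤ 1)
    (y : Col n κ → ℝ) (hy : ∀ D, |y D| ≤ 1) (Q : ℝ) (hQ : ∀ D, y D ≠ 0 → qq p D ≤ Q) :
    Lv p Q (∑ D : Col n κ with qq p D ≤ Q, 2 ^ (univ.filter (fun i => D i ≠ none)).card)
      (VV g y) := by
  sorry

theorem transfer {α : Type} [DecidableEq α] (𝒜 : Finset α) (col : α → Col n κ) (p : Fin n → ℝ)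
    (g : Fin n → κ → ℝ) (N Err Q B : ℝ) (hErr : 0 ≤ Err)
    (hcnt : ∀ D : Col n κ, qq p D ≤ Q →
      |((𝒜.filter (fun a => ∀ i, D i ≠ none → col a i = D i)).card : ℝ) - N * nu g D| ≤ Err)
    (F : Col n κ → ℝ) (hF : Lv p Q B F) :
    |∑ a ∈ 𝒜, F (col a) - N * EE g F| ≤ Err * B := by
  sorry

/-! ## QJ (adapt SC/J.lean; uses all of the above and SC.count_assign, SC.SS_lower, SC.SS_upper,
SC.Lv_const, SC.Lv_mono, SC.Lv_sub, SC.Lv_sum, SC.Lv_mul, SC.Lv_SS) -/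

theorem core {α : Type} [DecidableEq α] (𝒜 : Finset α) (col : α → Col n κ)
    {p : Fin n → ℝ} {g : Fin n → κ → ℝ} {h : κ → Finset (Fin n) → ℝ} {z : ℝ} {K : κ → ℝ}
    (H : ∀ k, Hyp p (fun i => g i k) (h k) z (K k))
    (Q δ t N Err G : ℝ) (J : ℕ) (hJ : Even J) (ht : 0 < t) (hN : 0 < N) (hErr : 0 ≤ Err)
    (hQz : 1 ≤ Q) (hz1 : 1 < z) (hp1 : ∀ i, 1 ≤ p i) (hg0 : ∀ i k, 0 ≤ g i k)
    (hpz : ∀ i, p i ≤ z) (hg1 : ∀ i k, g i k ≤ 1) (htg : ∀ i k, 3 * t * g i k ≤ 1)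
    (hug : ∀ i, ∑ k, g i k ≤ 1) (hG0 : 0 ≤ G) (hG : ∀ k, ∑ i, g i k ≤ G)
    (hδ : ∀ D : Col n κ, qq p D ≤ Q → ∀ k, 2 * ∑ i with D i ≠ none, g i k ≤ δ)
    (hug4 : (Fintype.card κ : ℝ) * δ ≤ 1 / 4)
    (hs : 2 * (Fintype.card κ : ℝ) * ∑ i, 1 / (p i) ^ 2 ≤ 1)
    (htail : (Fintype.card κ + 1 : ℝ) * (δ ^ 2 + Real.exp (2 * (∑ k, K k) / Real.log z
      - Real.log (Q / z) / Real.log z)) ≤ 1 / 8)
    (hmom : (Fintype.card κ : ℝ) * (1 / t) ^ J * Real.exp ((2 + 6 * t) * G) ≤ 1 / 8)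
    (hcnt : ∀ D : Col n κ, qq p D ≤ Q ^ 2 * z ^ J →
      |((𝒜.filter (fun a => ∀ i, D i ≠ none → col a i = D i)).card : ℝ) - N * nu g D| ≤ Err)
    (hfin : Err * (9 * Q ^ 4 * (1 + Fintype.card κ * (n + 1) ^ J)) < N / 8) :
    ∃ a ∈ 𝒜, ∀ k, ∃ i, col a i = some k := by
  sorry

/-! ## QS (adapt SC/S.lean, densities `≥ 0` instead of `> 0`) -/

theorem exists_h (p g : Fin n → ℝ) (hp : ∀ i, 1 < p i) (hg : ∀ i, 0 ≤ g i) (J : ℕ) (hJ : 1 ≤ J)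
    (z₀ lam : ℝ) (hz₀ : 1 < z₀) (hlam : 0 < lam)
    (hA : ∀ j < J, 1 ≤ Asum p g (z₀ ^ (2 ^ j)) ∧
      lam * (2 ^ j * Real.log z₀) ≤ Asum p g (z₀ ^ (2 ^ j))) :
    ∃ h, Hyp p g h (z₀ ^ (2 ^ (J - 1))) (4 / (lam * J)) := by
  sorry

/-! ## Number theory -/

open Pool.Agent.Helper919 (XX)

open Classical in
/-- QL: lower bound of the sums over squarefree numbers (Rankin's trick + Mertens) -/
theorem A_lower : ∃ c₂ : ℝ, 0 < c₂ ∧ ∀ (y₁ z x C : ℝ) (χ : ℕ → ℝ), (∀ p, |χ p| ≤ 1) →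
    3 ≤ y₁ → y₁ ≤ x → x ≤ z → 0 ≤ C → (∀ w, y₁ ≤ w → w ≤ z → -C ≤ Tc χ y₁ w) →
    c₂ * Real.exp (-C) * (Real.log x / Real.log y₁) - 1 ≤
      ∑ s ∈ ((PZ y₁ z).powerset.filter (fun s : Finset ℕ => s.Nonempty ∧ ∏ p ∈ s, (p : ℝ) ≤ x)),
        ∏ p ∈ s, (1 + χ p) / p := by
  sorry

/-- QM: large sieve for one block -/
theorem block_sieve (H U V : ℕ) (hH : 1 ≤ H) (hU : 2 ≤ U) (hUV : U ≤ V) (δ : ℝ) (hδ : 0 < δ)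
    (hUH : 64 * (H : ℝ) ^ 2 * (1 + Real.log V) ≤ δ ^ 2 * U) (S : Finset ℤ)
    (hS : ∀ a ∈ S, a ≠ 0 ∧ |a| ≤ H ∧
      ∑ p ∈ (Ioc U V).filter (fun p : ℕ => p.Prime), XX a p / p ≤ -δ) :
    (S.card : ℝ) ≤ 8 * (Real.sqrt H + 1) * (1 + Real.log V) ^ 2 / δ ^ 2 := by
  sorry

/-- QN1: Siegel-Walfisz for the tails -/
theorem sw_tails : ∃ P0 : ℕ, ∀ P : ℕ, P0 ≤ P → ∀ Q : ℕ, P ≤ Q → ∀ D : ℤ,
    ¬ IsSquare D → 4 * |(D : ℝ)| ≤ Real.log P ^ 40 → |Pool.Agent.H300R2.EC.Sd D P Q| ≤ 1 := by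
  sorry

/-- QN: lower bounds for the partial sums: all `D`, and all but few `D` -/
theorem T_lower : ∃ C : ℝ, 0 ≤ C ∧ ∃ L₀ : ℝ, ∀ L : ℝ, L₀ ≤ L → ∃ E : Finset ℤ,
    (E.card : ℝ) ≤ L ^ (7 / 10 : ℝ) ∧
    ∀ D : ℤ, ¬ IsSquare D → |(D : ℝ)| ≤ L ^ (11 / 10 : ℝ) →
      (∀ w, L ^ 2 ≤ w → w ≤ Real.exp L → -(C + Real.log L / 20) ≤ Tc (fun p => XX D p) (L ^ 2) w) ∧
      (D ∉ E → ∀ w, L ^ 2 ≤ w → w ≤ Real.exp L → -C ≤ Tc (fun p => XX D p) (L ^ 2) w) := by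
  sorry

open Classical in
/-- QP: Selberg's sieve with a prime and a number without prime factors up to `w` -/
theorem sieve_mixed : ∃ C : ℝ, 0 < C ∧ ∀ (m N w : ℕ) (s : ℤ), (s = 1 ∨ s = -1) → 0 < m → 2 ≤ w →
    (w : ℝ) ≤ (N : ℝ) ^ (1 / 16 : ℝ) →
    (((Finset.Icc 1 N).filter (fun q : ℕ => q.Prime ∧
      ∀ p : ℕ, p.Prime → p ≤ w → ¬ ((p : ℤ) ∣ (m : ℤ) * (q : ℤ) + s))).card : ℝ) ≤
      C * ((m : ℝ) / (Nat.totient m : ℝ)) ^ 2 * N / (Real.log N * Real.log w) := by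
  sorry

/-- QR1: the average of `(m/φ(m))²/m` -/
theorem sum_ratio : ∃ C : ℝ, 0 < C ∧ ∀ M : ℕ, 2 ≤ M →
    ∑ m ∈ Finset.Icc 1 M, ((m : ℝ) / (Nat.totient m : ℝ)) ^ 2 / m ≤ C * Real.log M := by
  sorry

open Classical in
/-- QR: survivors `h`, `|h| ≤ R`: no prime `p ≤ y` divides `cl(p)² + h` -/
theorem survivors : ∃ C : ℝ, 0 < C ∧ ∃ y₀ : ℝ, ∀ y : ℝ, y₀ ≤ y → ∀ R : ℕ, y ≤ R →
    (R : ℝ) ≤ y * (Real.log y) ^ 2 →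
    (((Finset.Icc (-(R : ℤ)) R).filter (fun h => h ≠ 0 ∧ ∀ p : ℕ, p.Prime → (p : ℝ) ≤ y →
        ¬ ((p : ℤ) ∣ (cl y p : ℤ) ^ 2 + h))).card : ℝ) ≤
      C * R * (Real.log (Real.log y)) ^ 2 /
        ((Real.log y) ^ 2 * Real.log (Real.log (Real.log y))) := by
  sorry

/-! ## QV (helper378): the covering theorem for squares -/

theorem qcov : ∃ c : ℝ, 0 < c ∧ ∃ X₀ : ℝ, ∀ X : ℝ, X₀ ≤ X → ∀ 𝒮 : Finset ℤ,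
    (∀ h ∈ 𝒮, |(h : ℝ)| ≤ (Real.log X) ^ (11 / 10 : ℝ) ∧ ¬ IsSquare (-h)) →
    (𝒮.card : ℝ) ≤ c * Real.log X →
    ∀ (𝒜 : Finset ℤ) (N Err : ℝ), X ^ (1 / 2 : ℝ) ≤ N → 0 ≤ Err → Err ≤ X ^ (1 / 20 : ℝ) →
    (∀ q : ℕ, Squarefree q → (q : ℝ) ≤ X ^ (1 / 4 : ℝ) →
      (∀ p ∈ q.primeFactors, (Real.log X) ^ 2 < p) →
      ∀ r : ℤ, |((𝒜.filter (fun x => (q : ℤ) ∣ x - r)).card : ℝ) - N / q| ≤ Err) →
    ∃ x ∈ 𝒜, ∀ h ∈ 𝒮, ∃ p : ℕ, p.Prime ∧ (Real.log X) ^ 2 < p ∧ (p : ℝ) ≤ X ^ (1 / 10 : ℝ) ∧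
      (p : ℤ) ∣ x ^ 2 + h := by
  sorry

/-! ## QG: the final theorem -/

theorem main : ∃ c : ℝ, 0 < c ∧ ∃ Z₀ : ℝ, ∀ Z : ℝ, Z₀ ≤ Z → ∀ M : ℝ, Z ≤ M →
    ∃ x : ℕ, M < x ∧ (x : ℝ) ≤ M + Z ∧ ∀ q : ℕ, q.Prime →
      c * Pool.Agent.H256R2.SC.ff Z < |(q : ℝ) - (x : ℝ) ^ 2| := by
  sorry

end Pool.Agent.H378R2.QG.Stubs
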