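import Pool.Agent.H378R2.QG.Defs
import Pool.Agent.H256R2.SC.V1
import Pool.Agent.Helper919.Char

set_option autoImplicit false
set_option linter.unusedSectionVars false

/-! # Counting the `x` with `p ∣ x² + h` (project QG, helper378) -/

namespace Pool.Agent.H378R2.QG

open Finset
open Pool.Agent.H256R2.SC (Col supp qq emb emb_mem emb_surj crt_int mem_supp prod_nu1 nu1)
open Pool.Agent.Helper919 (XX XX_apply)

theorem XX_cases {p : ℕ} (hp : p.Prime) (hp2 : p ≠ 2) (a : ℤ) (ha : ¬ (p : ℤ) ∣ a) :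
    (XX a p = 1 ∧ ∃ r : ℤ, (p : ℤ) ∣ r ^ 2 - a) ∨ (XX a p = -1 ∧ ∀ r : ℤ, ¬ (p : ℤ) ∣ r ^ 2 - a) := by
  have : Fact p.Prime := ⟨hp⟩
  have ho : Odd p := hp.odd_of_ne_two hp2
  have h1 : XX a p = ((legendreSym p a : ℤ) : ℝ) := by
    rw [XX_apply, if_pos ho, jacobiSym.legendreSym.to_jacobiSym]
  have ha0 : (a : ZMod p) ≠ 0 := by
    intro h
    exact ha ((ZMod.intCast_zmod_eq_zero_iff_dvd a p).1 h)
  rcases legendreSym.eq_one_or_neg_one p ha0 with h | h
  · left
    refine ⟨by rw [h1, h]; norm_num, ?_⟩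
    obtain ⟨b, hb⟩ := (legendreSym.eq_one_iff p ha0).1 h
    refine ⟨(b.val : ℤ), ?_⟩
    rw [← ZMod.intCast_zmod_eq_zero_iff_dvd]
    push_cast
    rw [ZMod.natCast_zmod_val, hb]
    ring
  · right
    refine ⟨by rw [h1, h]; norm_num, fun r hr => ?_⟩
    apply (legendreSym.eq_neg_one_iff p).1 h
    refine ⟨(r : ZMod p), ?_⟩
    have := (ZMod.intCast_zmod_eq_zero_iff_dvd (r ^ 2 - a) p).2 hr
    push_cast at this
    linear_combination -this

/-- the number of the `x ∈ 𝒜` with `x² + b i ≡ 0` mod `p i` for all `i ∈ S` (two roots each) -/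
theorem count_roots {ι : Type} [DecidableEq ι] (S : Finset ι) (p : ι → ℕ)
    (hp : ∀ i ∈ S, (p i).Prime) (hinj : ∀ i ∈ S, ∀ j ∈ S, i ≠ j → p i ≠ p j) (r b : ι → ℤ)
    (hr : ∀ i ∈ S, (p i : ℤ) ∣ r i ^ 2 + b i) (hr2 : ∀ i ∈ S, ¬ (p i : ℤ) ∣ 2 * r i)
    (𝒜 : Finset ℤ) (N Err : ℝ)
    (hcount : ∀ c : ℤ, |((𝒜.filter (fun x => ((∏ i ∈ S, p i : ℕ) : ℤ) ∣ x - c)).card : ℝ) -
      N / ((∏ i ∈ S, p i : ℕ) : ℝ)| ≤ Err) :
    |((𝒜.filter (fun x => ∀ i ∈ S, (p i : ℤ) ∣ x ^ 2 + b i)).card : ℝ) -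
      N * ∏ i ∈ S, (2 / (p i : ℝ))| ≤ 2 ^ S.card * Err := by
  classical
  set q : ℕ := ∏ i ∈ S, p i with hq
  have hcop : ∀ i ∈ S, ∀ j ∈ S, i ≠ j → IsCoprime ((p i : ℕ) : ℤ) ((p j : ℕ) : ℤ) :=
    fun i hi j hj hij => Nat.isCoprime_iff_coprime.mpr
      ((Nat.coprime_primes (hp i hi) (hp j hj)).2 (hinj i hi j hj hij))
  -- the residue classes
  have hc : ∀ T : Finset ι, ∃ c : ℤ, ∀ i ∈ S, (p i : ℤ) ∣ c - (if i ∈ T then r i else - r i) :=
    fun T => crt_int S (fun i => ((p i : ℕ) : ℤ)) hcop _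
  choose c hc using hc
  have hqdvd : ∀ y : ℤ, (∀ i ∈ S, (p i : ℤ) ∣ y) ↔ (q : ℤ) ∣ y := by
    intro y
    constructor
    · intro h
      have : ((q : ℕ) : ℤ) = ∏ i ∈ S, ((p i : ℕ) : ℤ) := by rw [hq]; push_cast; rfl
      rw [this]
      exact Finset.prod_dvd_of_coprime (fun i hi j hj hij => hcop i hi j hj hij) h
    · intro h i hi
      refine dvd_trans ?_ h
      have : p i ∣ q := Finset.dvd_prod_of_mem _ hi
      exact_mod_cast this
  set F := 𝒜.filter (fun x => ∀ i ∈ S, (p i : ℤ) ∣ x ^ 2 + b i) with hF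
  set τ : ℤ → Finset ι := fun x => S.filter (fun i => (p i : ℤ) ∣ x - r i) with hτ
  have hmaps : ∀ x ∈ F, τ x ∈ S.powerset := fun x _ => by
    rw [Finset.mem_powerset]; exact Finset.filter_subset _ _
  have hcard := Finset.card_eq_sum_card_fiberwise hmaps
  have hfib : ∀ T ∈ S.powerset, F.filter (fun x => τ x = T) =
      𝒜.filter (fun x => (q : ℤ) ∣ x - c T) := by
    intro T hT
    rw [Finset.mem_powerset] at hT
    ext x
    simp only [hF, Finset.mem_filter]
    constructor
    · rintro ⟨⟨hx, h1⟩, h2⟩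
      refine ⟨hx, (hqdvd _).1 fun i hi => ?_⟩
      have hci := hc T i hi
      by_cases hiT : i ∈ T
      · rw [if_pos hiT] at hci
        have h3 : i ∈ τ x := by rw [h2]; exact hiT
        rw [hτ, Finset.mem_filter] at h3
        have := dvd_sub h3.2 hci
        have e : x - r i - (c T - r i) = x - c T := by ring
        rwa [e] at this
      · rw [if_neg hiT] at hci
        have h3 : ¬ (p i : ℤ) ∣ x - r i := by
          intro h
          apply hiT
          rw [← h2, hτ, Finset.mem_filter]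
          exact ⟨hi, h⟩
        have h4 : (p i : ℤ) ∣ (x - r i) * (x + r i) := by
          have := dvd_sub (h1 i hi) (hr i hi)
          have e : x ^ 2 + b i - (r i ^ 2 + b i) = (x - r i) * (x + r i) := by ring
          rwa [e] at this
        have hpz : Prime ((p i : ℕ) : ℤ) := Nat.prime_iff_prime_int.1 (hp i hi)
        have h5 : (p i : ℤ) ∣ x + r i := (hpz.dvd_or_dvd h4).resolve_left h3
        have := dvd_sub h5 hci
        have e : x + r i - (c T - - r i) = x - c T := by ring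
        rwa [e] at this
    · rintro ⟨hx, h1⟩
      have h2 := (hqdvd _).2 h1
      have key : ∀ i ∈ S, (i ∈ T → (p i : ℤ) ∣ x - r i) ∧ (i ∉ T → (p i : ℤ) ∣ x + r i) := by
        intro i hi
        have hci := hc T i hi
        constructor
        · intro hiT
          rw [if_pos hiT] at hci
          have := dvd_add (h2 i hi) hci
          have e : x - c T + (c T - r i) = x - r i := by ring
          rwa [e] at this
        · intro hiT
          rw [if_neg hiT] at hci
          have := dvd_add (h2 i hi) hci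
          have e : x - c T + (c T - - r i) = x + r i := by ring
          rwa [e] at this
      refine ⟨⟨hx, fun i hi => ?_⟩, ?_⟩
      · have h3 : (p i : ℤ) ∣ (x - r i) * (x + r i) := by
          by_cases hiT : i ∈ T
          · exact Dvd.dvd.mul_right ((key i hi).1 hiT) _
          · exact Dvd.dvd.mul_left ((key i hi).2 hiT) _
        have := dvd_add h3 (hr i hi)
        have e : (x - r i) * (x + r i) + (r i ^ 2 + b i) = x ^ 2 + b i := by ring
        rwa [e] at this
      · rw [hτ]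
        ext i
        simp only [Finset.mem_filter]
        constructor
        · rintro ⟨hi, h3⟩
          by_contra hiT
          have h4 := (key i hi).2 hiT
          apply hr2 i hi
          have := dvd_sub h4 h3
          have e : x + r i - (x - r i) = 2 * r i := by ring
          rwa [e] at this
        · intro hiT
          exact ⟨hT hiT, (key i (hT hiT)).1 hiT⟩
  have h1 : (F.card : ℝ) = ∑ T ∈ S.powerset,
      ((𝒜.filter (fun x => (q : ℤ) ∣ x - c T)).card : ℝ) := by
    rw [hcard]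
    push_cast
    exact Finset.sum_congr rfl fun T hT => by rw [hfib T hT]
  have h2 : N * ∏ i ∈ S, (2 / (p i : ℝ)) = ∑ T ∈ S.powerset, N / (q : ℝ) := by
    rw [Finset.sum_const, Finset.card_powerset, nsmul_eq_mul, Finset.prod_div_distrib,
      Finset.prod_const, hq]
    push_cast
    ring
  rw [h1, h2, ← Finset.sum_sub_distrib]
  refine (Finset.abs_sum_le_sum_abs _ _).trans ?_
  refine (Finset.sum_le_sum fun T _ => hcount (c T)).trans ?_
  rw [Finset.sum_const, Finset.card_powerset, nsmul_eq_mul]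
  push_cast
  exact le_rfl

section
variable {κ : Type} [Fintype κ] [DecidableEq κ]

open Classical in
/-- colouring of the integers: the prime number `i` kills the shift `k` at `a` if `p ∣ a² + sh k` -/
noncomputable def colq (PP : Finset ℕ) (sh : κ → ℤ) (a : ℤ) : Col PP.card κ := fun i =>
  if h : ∃ k, ((emb PP i : ℕ) : ℤ) ∣ a ^ 2 + sh k then some h.choose else none

theorem colq_eq {PP : Finset ℕ} {sh : κ → ℤ}
    (hinj : ∀ p ∈ PP, ∀ k l, k ≠ l → ¬ ((p : ℤ) ∣ sh k - sh l)) (a : ℤ) (i : Fin PP.card)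
    (k : κ) : colq PP sh a i = some k ↔ ((emb PP i : ℕ) : ℤ) ∣ a ^ 2 + sh k := by
  unfold colq
  constructor
  · intro h
    split_ifs at h with h1
    have h2 := Option.some.inj h
    have h3 := h1.choose_spec
    rw [h2] at h3
    exact h3
  · intro h
    have h1 : ∃ k, ((emb PP i : ℕ) : ℤ) ∣ a ^ 2 + sh k := ⟨k, h⟩
    rw [dif_pos h1]
    congr 1
    by_contra hne
    apply hinj (emb PP i) (emb_mem PP i) h1.choose k hne
    have h3 := h1.choose_spec
    have h4 := dvd_sub h3 h
    have h5 : a ^ 2 + sh h1.choose - (a ^ 2 + sh k) = sh h1.choose - sh k := by ring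
    rwa [h5] at h4

/-- the density of `p ∣ x² + sh k` -/
noncomputable def gq (PP : Finset ℕ) (sh : κ → ℤ) (i : Fin PP.card) (k : κ) : ℝ :=
  (1 + XX (-sh k) (emb PP i)) / ((emb PP i : ℕ) : ℝ)

theorem event_count {PP : Finset ℕ} (hP : ∀ p ∈ PP, p.Prime ∧ p ≠ 2) {sh : κ → ℤ}
    (hinj : ∀ p ∈ PP, ∀ k l, k ≠ l → ¬ ((p : ℤ) ∣ sh k - sh l))
    (hnd : ∀ p ∈ PP, ∀ k, ¬ (p : ℤ) ∣ sh k) (D : Col PP.card κ) (𝒜 : Finset ℤ) (N Err : ℝ)
    (hErr : 0 ≤ Err)
    (hcount : ∀ c : ℤ, |((𝒜.filter (fun x => ((∏ i ∈ supp D, emb PP i : ℕ) : ℤ) ∣ x - c)).card : ℝ) -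
      N / ((∏ i ∈ supp D, emb PP i : ℕ) : ℝ)| ≤ Err) :
    |((𝒜.filter (fun a => ∀ i, D i ≠ none → colq PP sh a i = D i)).card : ℝ) -
      N * nu (gq PP sh) D| ≤ 2 ^ (supp D).card * Err := by
  classical
  set b : Fin PP.card → ℤ := fun i => match D i with | none => 0 | some k => sh k with hb
  have hbk : ∀ i k, D i = some k → b i = sh k := by
    intro i k h
    simp only [hb, h]
  have hfilt : 𝒜.filter (fun a => ∀ i, D i ≠ none → colq PP sh a i = D i) =
      𝒜.filter (fun a => ∀ i ∈ supp D, ((emb PP i : ℕ) : ℤ) ∣ a ^ 2 + b i) := by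
    apply Finset.filter_congr
    intro a _
    have key : ∀ i, D i ≠ none → (colq PP sh a i = D i ↔ ((emb PP i : ℕ) : ℤ) ∣ a ^ 2 + b i) := by
      intro i hi
      obtain ⟨k, hk⟩ := Option.ne_none_iff_exists'.mp hi
      rw [hk, hbk i k hk]
      exact colq_eq hinj a i k
    constructor
    · intro h i hi
      have hi' := mem_supp.mp hi
      exact (key i hi').1 (h i hi')
    · intro h i hi
      exact (key i hi).2 (h i (mem_supp.mpr hi))
  have hnu : nu (gq PP sh) D = ∏ i ∈ supp D, ((1 + XX (-b i) (emb PP i)) / ((emb PP i : ℕ) : ℝ)) := by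
    unfold nu supp
    rw [Finset.prod_filter]
    refine Finset.prod_congr rfl fun i _ => ?_
    cases h : D i with
    | none => simp [nug]
    | some k =>
      simp only [nug, gq, ne_eq, reduceCtorEq, not_false_eq_true, if_true]
      rw [hbk i k h]
  rw [hfilt, hnu]
  by_cases hall : ∀ i ∈ supp D, XX (-b i) (emb PP i) = 1
  · have h1 : ∀ i : Fin PP.card, ∃ r : ℤ, i ∈ supp D → ((emb PP i : ℕ) : ℤ) ∣ r ^ 2 - (-b i) := by
      intro i
      by_cases hi : i ∈ supp D
      · obtain ⟨k, hk⟩ := Option.ne_none_iff_exists'.mp (mem_supp.mp hi)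
        have h2 := hP _ (emb_mem PP i)
        have h3 : ¬ ((emb PP i : ℕ) : ℤ) ∣ -b i := by
          rw [dvd_neg, hbk i k hk]
          exact hnd _ (emb_mem PP i) k
        rcases XX_cases h2.1 h2.2 (-b i) h3 with ⟨-, r, hr⟩ | ⟨h4, -⟩
        · exact ⟨r, fun _ => hr⟩
        · rw [hall i hi] at h4
          norm_num at h4
      · exact ⟨0, fun h => absurd h hi⟩
    choose r hr using h1
    have h2 := count_roots (supp D) (fun i => emb PP i) (fun i _ => (hP _ (emb_mem PP i)).1)
      (fun i _ j _ hij h => hij ((emb PP).injective h)) r b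
      (fun i hi => by
        have := hr i hi
        rwa [sub_neg_eq_add] at this)
      (fun i hi h => by
        obtain ⟨k, hk⟩ := Option.ne_none_iff_exists'.mp (mem_supp.mp hi)
        have h2 := hP _ (emb_mem PP i)
        have hpz : Prime (((emb PP i : ℕ)) : ℤ) := Nat.prime_iff_prime_int.1 h2.1
        rcases hpz.dvd_or_dvd h with h3 | h3
        · have h4 : emb PP i ∣ 2 := by exact_mod_cast h3
          exact h2.2 ((Nat.prime_dvd_prime_iff_eq h2.1 Nat.prime_two).1 h4)
        · have h4 := hr i hi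
          rw [sub_neg_eq_add] at h4
          have h5 : ((emb PP i : ℕ) : ℤ) ∣ r i ^ 2 := dvd_pow h3 two_ne_zero
          have h6 := (dvd_add_right h5).1 h4
          rw [hbk i k hk] at h6
          exact hnd _ (emb_mem PP i) k h6)
      𝒜 N Err hcount
    have h3 : ∏ i ∈ supp D, ((1 + XX (-b i) (emb PP i)) / ((emb PP i : ℕ) : ℝ)) =
        ∏ i ∈ supp D, (2 / ((emb PP i : ℕ) : ℝ)) := by
      refine Finset.prod_congr rfl fun i hi => ?_
      rw [hall i hi]
      norm_num
    rw [h3]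
    convert h2
  · push Not at hall
    obtain ⟨i, hi, hne⟩ := hall
    obtain ⟨k, hk⟩ := Option.ne_none_iff_exists'.mp (mem_supp.mp hi)
    have h2 := hP _ (emb_mem PP i)
    have h3 : ¬ ((emb PP i : ℕ) : ℤ) ∣ -b i := by
      rw [dvd_neg, hbk i k hk]
      exact hnd _ (emb_mem PP i) k
    rcases XX_cases h2.1 h2.2 (-b i) h3 with ⟨h4, -⟩ | ⟨h4, h5⟩
    · exact absurd h4 hne
    · have h6 : 𝒜.filter (fun a => ∀ i ∈ supp D, ((emb PP i : ℕ) : ℤ) ∣ a ^ 2 + b i) = ∅ := by
        rw [Finset.filter_eq_empty_iff]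
        intro a _ h
        have := h i hi
        apply h5 a
        rwa [sub_neg_eq_add]
      have h7 : ∏ i ∈ supp D, ((1 + XX (-b i) (emb PP i)) / ((emb PP i : ℕ) : ℝ)) = 0 := by
        apply Finset.prod_eq_zero hi
        rw [h4]
        norm_num
      rw [h6, h7]
      simp only [Finset.card_empty, Nat.cast_zero, mul_zero, sub_zero, abs_zero]
      positivity

end

end Pool.Agent.H378R2.QG
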